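import Pool.Agent.W852.FG.Stms

/-!
# Joint measurability of the visits in the tree and the particles
-/

namespace FrogRec

open MeasureTheory ProbabilityTheory Filter FrogGW
open scoped ENNReal NNReal

theorem step_meas (v y : List ℕ) : MeasurableSet {q : Env × ℝ | step q.1 v q.2 = y} := by
  cases v with
  | nil =>
    have hg : Measurable fun q : Env × ℝ => min ⌊q.2 * (q.1 [] : ℝ)⌋₊ (q.1 [] - 1) := by
      have h1 : Measurable fun q : Env × ℝ => q.1 [] := (measurable_pi_apply []).comp measurable_fst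
      have h2 : Measurable fun q : Env × ℝ => ⌊q.2 * (q.1 [] : ℝ)⌋₊ :=
        Nat.measurable_floor.comp (measurable_snd.mul (measurable_from_nat.comp h1))
      exact h2.min ((measurable_of_countable (fun a : ℕ => a - 1)).comp h1)
    have : {q : Env × ℝ | step q.1 [] q.2 = y} =
        (fun q : Env × ℝ => min ⌊q.2 * (q.1 [] : ℝ)⌋₊ (q.1 [] - 1)) ⁻¹' {a | [a] = y} := by
      ext q; rfl
    rw [this]
    exact hg (Set.to_countable _).measurableSet
  | cons i v =>
    have h1 : Measurable fun q : Env × ℝ => q.1 (i :: v) :=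
      (measurable_pi_apply (i :: v)).comp measurable_fst
    have h2 : Measurable fun q : Env × ℝ => ⌊q.2 * ((q.1 (i :: v) : ℝ) + 1)⌋₊ :=
      Nat.measurable_floor.comp (measurable_snd.mul ((measurable_from_nat.comp h1).add_const 1))
    have hc : MeasurableSet {q : Env × ℝ | ⌊q.2 * ((q.1 (i :: v) : ℝ) + 1)⌋₊ < q.1 (i :: v)} :=
      measurableSet_lt h2 h1
    have : {q : Env × ℝ | step q.1 (i :: v) q.2 = y} =
        ({q : Env × ℝ | ⌊q.2 * ((q.1 (i :: v) : ℝ) + 1)⌋₊ < q.1 (i :: v)} ∩
          (fun q : Env × ℝ => ⌊q.2 * ((q.1 (i :: v) : ℝ) + 1)⌋₊) ⁻¹' {a | a :: i :: v = y}) ∪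
        ({q : Env × ℝ | ⌊q.2 * ((q.1 (i :: v) : ℝ) + 1)⌋₊ < q.1 (i :: v)}ᶜ ∩
          {_q : Env × ℝ | v = y}) := by
      ext q
      simp only [step, Set.mem_union, Set.mem_inter_iff, Set.mem_compl_iff, Set.mem_ofPred_eq,
        Set.mem_preimage]
      by_cases h : ⌊q.2 * ((q.1 (i :: v) : ℝ) + 1)⌋₊ < q.1 (i :: v)
      · simp [h]
      · simp [h]
    rw [this]
    exact (hc.inter (h2 (Set.to_countable _).measurableSet)).union
      (hc.compl.inter (MeasurableSet.const _))

theorem walk_meas (x : List ℕ) (k : ℕ) : ∀ y : List ℕ,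
    MeasurableSet {q : Env × (ℕ → ℝ) | walk q.1 x q.2 k = y} := by
  induction k with
  | zero => intro y; exact (MeasurableSet.const (x = y) : MeasurableSet {_q : Env × (ℕ → ℝ) | x = y})
  | succ k ih =>
    intro y
    have : {q : Env × (ℕ → ℝ) | walk q.1 x q.2 (k + 1) = y} =
        ⋃ v : List ℕ, ({q : Env × (ℕ → ℝ) | walk q.1 x q.2 k = v} ∩
          (fun q : Env × (ℕ → ℝ) => (q.1, q.2 k)) ⁻¹' {q : Env × ℝ | step q.1 v q.2 = y}) := by
      ext q
      simp [walk]
    rw [this]
    refine MeasurableSet.iUnion fun v => (ih v).inter ?_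
    exact (measurable_fst.prodMk ((measurable_pi_apply k).comp measurable_snd)) (step_meas v y)

/-- Vertices activated after at most `m` generations. -/
def actN (Z : Env) (ω : Conf) : ℕ → List ℕ → Prop
  | 0, x => x = []
  | m + 1, x => actN Z ω m x ∨ ∃ y j k, actN Z ω m y ∧ j < cnt y (ω y) ∧
      walk Z y ((ω y).2 j) k = x

theorem active_iff (Z : Env) (ω : Conf) (x : List ℕ) : Active Z ω x ↔ ∃ m, actN Z ω m x := by
  constructor
  · intro h
    induction h with
    | root => exact ⟨0, rfl⟩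
    | @wake y z j k _ hj hk ih =>
      obtain ⟨m, hm⟩ := ih
      exact ⟨m + 1, Or.inr ⟨y, j, k, hm, hj, hk⟩⟩
  · rintro ⟨m, hm⟩
    induction m generalizing x with
    | zero => rw [show x = [] from hm]; exact Active.root
    | succ m ih =>
      rcases hm with h | ⟨y, j, k, h1, h2, h3⟩
      · exact ih x h
      · exact Active.wake j k (ih y h1) h2 h3

theorem cnt_meas (y : List ℕ) (j : ℕ) : MeasurableSet {q : Env × Conf | j < cnt y (q.2 y)} := by
  cases y with
  | nil => exact (MeasurableSet.const (j < 1) : MeasurableSet {_q : Env × Conf | j < 1})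
  | cons i v =>
    have h : Measurable fun q : Env × Conf => (q.2 (i :: v)).1 :=
      ((measurable_pi_apply (i :: v)).comp measurable_snd).fst
    exact h (Set.to_countable (Set.Ioi j)).measurableSet

theorem vis_meas (y x : List ℕ) (j k : ℕ) :
    MeasurableSet {q : Env × Conf | walk q.1 y ((q.2 y).2 j) k = x} := by
  have h1 : Measurable fun q : Env × Conf => ((q.2 y).2 j : ℕ → ℝ) :=
    (measurable_pi_apply j).comp ((measurable_pi_apply y).comp measurable_snd).snd
  exact (measurable_fst.prodMk h1) (walk_meas y k x)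

theorem actN_meas (m : ℕ) : ∀ x : List ℕ, MeasurableSet {q : Env × Conf | actN q.1 q.2 m x} := by
  induction m with
  | zero => intro x; exact MeasurableSet.const _
  | succ m ih =>
    intro x
    have : {q : Env × Conf | actN q.1 q.2 (m + 1) x} = {q : Env × Conf | actN q.1 q.2 m x} ∪
        ⋃ y : List ℕ, ⋃ j : ℕ, ⋃ k : ℕ, ({q : Env × Conf | actN q.1 q.2 m y} ∩
          {q : Env × Conf | j < cnt y (q.2 y)} ∩
          {q : Env × Conf | walk q.1 y ((q.2 y).2 j) k = x}) := by
      ext q
      simp only [actN, Set.mem_union, Set.mem_inter_iff, Set.mem_ofPred_eq, Set.mem_iUnion]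
      constructor
      · rintro (h | ⟨y, j, k, h1, h2, h3⟩)
        · exact Or.inl h
        · exact Or.inr ⟨y, j, k, ⟨h1, h2⟩, h3⟩
      · rintro (h | ⟨y, j, k, ⟨h1, h2⟩, h3⟩)
        · exact Or.inl h
        · exact Or.inr ⟨y, j, k, h1, h2, h3⟩
    rw [this]
    refine (ih x).union (MeasurableSet.iUnion fun y => MeasurableSet.iUnion fun j =>
      MeasurableSet.iUnion fun k => ?_)
    exact ((ih y).inter (cnt_meas y j)).inter (vis_meas y x j k)

theorem active_meas (x : List ℕ) : MeasurableSet {q : Env × Conf | Active q.1 q.2 x} := by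
  have : {q : Env × Conf | Active q.1 q.2 x} = ⋃ m, {q : Env × Conf | actN q.1 q.2 m x} := by
    ext q
    simp [active_iff]
  rw [this]
  exact MeasurableSet.iUnion fun m => actN_meas m x

/-- Membership in a random subset of a countable type: finiteness is measurable. -/
theorem finite_meas {Ω ι : Type} [MeasurableSpace Ω] [Countable ι] (V : Ω → Set ι)
    (hV : ∀ a, MeasurableSet {ω | a ∈ V ω}) : MeasurableSet {ω | (V ω).Finite} := by
  have : {ω | (V ω).Finite} = ⋃ F : Finset ι, ⋂ a : ι, ⋂ (_ : a ∉ F), {ω | a ∈ V ω}ᶜ := by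
    ext ω
    simp only [Set.mem_ofPred_eq, Set.mem_iUnion, Set.mem_iInter, Set.mem_compl_iff]
    constructor
    · intro h
      exact ⟨h.toFinset, fun a ha => by simpa using ha⟩
    · rintro ⟨F, hF⟩
      refine F.finite_toSet.subset fun a ha => ?_
      by_contra haF
      exact hF a haF ha
  rw [this]
  exact MeasurableSet.iUnion fun F => MeasurableSet.iInter fun a => MeasurableSet.iInter fun _ =>
    (hV a).compl

theorem visits_meas : MeasurableSet {q : Env × Conf | {r : (List ℕ × ℕ) × ℕ |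
    Active q.1 q.2 r.1.1 ∧ r.1.2 < cnt r.1.1 (q.2 r.1.1) ∧
      walk q.1 r.1.1 ((q.2 r.1.1).2 r.1.2) r.2 = []}.Finite} := by
  refine finite_meas (fun q : Env × Conf => {r : (List ℕ × ℕ) × ℕ |
    Active q.1 q.2 r.1.1 ∧ r.1.2 < cnt r.1.1 (q.2 r.1.1) ∧
      walk q.1 r.1.1 ((q.2 r.1.1).2 r.1.2) r.2 = []}) fun a => ?_
  exact (active_meas a.1.1).inter ((cnt_meas a.1.1 a.1.2).inter (vis_meas a.1.1 [] a.1.2 a.2))

end FrogRec
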