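import Pool.Agent.W626.FR.Stms

/-!
# Assembly
-/

namespace FrogRec

open MeasureTheory ProbabilityTheory Filter FrogGW
open scoped ENNReal NNReal Classical Topology

theorem gg_le_one (M : ℝ≥0) (j : ℕ) (κ lam : ℝ≥0) : gg M j κ lam ≤ 1 := by
  unfold gg
  refine pow_le_one₀ (by positivity) ?_
  exact inv_le_one_of_one_le₀ (by simp)

theorem EG_le_one (hNu : TaskNu) (M mu : ℝ≥0) (j n : ℕ) (Z : Env) : EG M mu j n Z ≤ 1 := by
  have := hNu.2.1 mu n Z
  unfold EG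
  calc ∫⁻ lam, (gg M j (kap n Z) lam : ℝ≥0∞) ∂(nu mu n Z) ≤ ∫⁻ _, 1 ∂(nu mu n Z) := by
        refine lintegral_mono fun lam => ?_
        exact ENNReal.coe_le_one_iff.mpr (gg_le_one M j (kap n Z) lam)
    _ = 1 := by simp

theorem Phi_le_one (hKap : TaskKap) (hNu : TaskNu) (p : Measure ℕ) [IsProbabilityMeasure p]
    (M mu : ℝ≥0) (n : ℕ) : Phi p M mu n ≤ 1 := by
  unfold Phi
  calc _ ≤ ∫⁻ _ : Env, ∫⁻ _ : Env, 1 ∂(GW p) ∂(GW p) := by
        refine lintegral_mono fun Z => lintegral_mono fun Y => ?_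
        have h1 : ((KK n Y / (KK n Y + kap n Z) : ℝ≥0) : ℝ≥0∞) ≤ 1 := by
          have : KK n Y / (KK n Y + kap n Z) ≤ 1 := div_le_one_of_le₀ le_self_add (by positivity)
          exact_mod_cast this
        have h2 : (kap n Z : ℝ≥0∞) ≤ 1 := by exact_mod_cast hKap.1 n Z
        exact mul_le_one' h1 (mul_le_one' h2 (EG_le_one hNu M mu 1 n Z))
    _ = 1 := by simp

theorem Gain_le_one (hKap : TaskKap) (hNu : TaskNu) (p : Measure ℕ) [IsProbabilityMeasure p]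
    (M mu : ℝ≥0) (n : ℕ) : Gain p M mu n ≤ 1 := by
  unfold Gain
  calc _ ≤ ∫⁻ _ : Env, 1 ∂(GW p) := by
        refine lintegral_mono fun Z => ?_
        have h2 : (kap n Z : ℝ≥0∞) ≤ 1 := by exact_mod_cast hKap.1 n Z
        exact mul_le_one' h2 (EG_le_one hNu M mu 2 n Z)
    _ = 1 := by simp

theorem rde (hKap : TaskKap) (hNu : TaskNu) (hN1 : TaskN1) (hLB : TaskLB) (hR1 : TaskR1)
    (hR2 : TaskR2) (hSum : TaskSum) (hFin : TaskFin) : TaskRDE := by
  intro p _ hp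
  obtain ⟨δ, hδ, h1⟩ := hR1 p hp
  obtain ⟨ρ, hρ, C, h2⟩ := hR2 p hp
  obtain ⟨C', h3⟩ := hLB p hp
  obtain ⟨M, hM1, hS⟩ := hSum δ ρ C C' hδ hρ
  obtain ⟨mu0, hmu0, h4⟩ := h3 M hM1
  refine ⟨mu0, fun mu hmu => hFin p M mu hM1 (hS M le_rfl (Phi p M mu) (Gain p M mu)
    (Psi p M mu) (fun n => ∫⁻ Z, Ls mu n Z ∂(GW p)) (Phi_le_one hKap hNu p M mu) ?_
    (Gain_le_one hKap hNu p M mu) (fun n _ => h1 M mu hM1 (hmu0.trans hmu) n)
    (fun n _ => h2 M mu hM1 n) (fun n hn => h4 mu hmu n hn))⟩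
  obtain ⟨B, hB⟩ := hN1 p hp
  refine ne_of_lt (lt_of_le_of_lt ?_ (ENNReal.coe_lt_top (r := B)))
  refine le_trans ?_ (hB 1)
  unfold Psi
  refine lintegral_mono fun Z => ?_
  calc (((kap 1 Z)⁻¹ : ℝ≥0) : ℝ≥0∞) * EG M mu 2 1 Z ≤ (((kap 1 Z)⁻¹ : ℝ≥0) : ℝ≥0∞) * 1 := by
        gcongr; exact EG_le_one hNu M mu 2 1 Z
    _ = _ := mul_one _

/-- The integrand of `TaskRDE`. -/
noncomputable def YY (mu : ℝ≥0) (n : ℕ) (Z : Env) : ℝ≥0∞ :=
  (kap n Z : ℝ≥0∞) * ∫⁻ lam, ENNReal.ofReal (Real.exp (-(lam : ℝ))) ∂(nu mu n Z)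

theorem YY_meas (hMZ : TaskMeasZ) (mu : ℝ≥0) (n : ℕ) : Measurable (YY mu n) := by
  refine hMZ.1 (n + 1) _ _ fun Z Z' h => ?_
  obtain ⟨h1, h2⟩ := hMZ.2.1 n Z Z' h
  rw [YY, YY, h1, h2 mu]

theorem sh_mp (hTree : TaskTree) (p : Measure ℕ) [IsProbabilityMeasure p] (J : ℕ) :
    MeasurePreserving (sh J) (GW p) (GW p) := by
  have h1 := hTree p
  have h2 : MeasurePreserving (Prod.snd : ℕ × (ℕ → Env) → (ℕ → Env))
      (p.prod (Measure.infinitePi fun _ : ℕ => GW p)) (Measure.infinitePi fun _ : ℕ => GW p) :=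
    measurePreserving_snd
  have h3 : MeasurePreserving (Function.eval J) (Measure.infinitePi fun _ : ℕ => GW p) (GW p) :=
    measurePreserving_eval_infinitePi (fun _ : ℕ => GW p) J
  exact h3.comp (h2.comp h1)

/-- Recurrence for a large density. -/
theorem recur (hFrog : TaskFrog) (hRDE : TaskRDE) (hEnv : TaskEnv) (hMZ : TaskMeasZ)
    (hTree : TaskTree) (p : Measure ℕ) [IsProbabilityMeasure p] (hp : Super p) :
    ∃ mu0 : ℝ≥0, ∀ mu, mu0 ≤ mu → ∀ᵐ Z ∂(GW p), Z ∈ Survive → ∀ᵐ ω ∂(FM mu),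
      {q : (List ℕ × ℕ) × ℕ | Active Z ω q.1.1 ∧ q.1.2 < cnt q.1.1 (ω q.1.1) ∧
        walk Z q.1.1 ((ω q.1.1).2 q.1.2) q.2 = []}.Infinite := by
  obtain ⟨mu0, hmu0⟩ := hRDE p hp
  refine ⟨mu0, fun mu hmu => ?_⟩
  have hT : Tendsto (fun n => ∫⁻ Z, YY mu n Z ∂(GW p)) atTop (𝓝 0) := hmu0 mu hmu
  have hlim : ∀ᵐ Z ∂(GW p), ∀ D : ℕ,
      liminf (fun n => ∑ J ∈ Finset.range D, YY mu n (sh J Z)) atTop = 0 := by
    rw [ae_all_iff]
    intro D
    have hm : ∀ n, Measurable fun Z : Env => ∑ J ∈ Finset.range D, YY mu n (sh J Z) := fun n =>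
      Finset.measurable_sum _ fun J _ => (YY_meas hMZ mu n).comp (sh_mp hTree p J).measurable
    have h1 : ∀ n, ∫⁻ Z, ∑ J ∈ Finset.range D, YY mu n (sh J Z) ∂(GW p) =
        D * ∫⁻ Z, YY mu n Z ∂(GW p) := by
      intro n
      rw [lintegral_finsetSum (f := fun J Z => YY mu n (sh J Z)) _ fun J _ =>
        (YY_meas hMZ mu n).comp (sh_mp hTree p J).measurable]
      have : ∀ J ∈ Finset.range D, ∫⁻ Z, YY mu n (sh J Z) ∂(GW p) = ∫⁻ Z, YY mu n Z ∂(GW p) :=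
        fun J _ => (sh_mp hTree p J).lintegral_comp (YY_meas hMZ mu n)
      rw [Finset.sum_congr rfl this]
      simp
    have h2 : ∫⁻ Z, liminf (fun n => ∑ J ∈ Finset.range D, YY mu n (sh J Z)) atTop ∂(GW p) = 0 := by
      refine le_antisymm ((lintegral_liminf_le hm).trans ?_) zero_le
      have h3 : Tendsto (fun n => ∫⁻ Z, ∑ J ∈ Finset.range D, YY mu n (sh J Z) ∂(GW p)) atTop
          (𝓝 0) := by
        simp_rw [h1]
        have := ENNReal.Tendsto.const_mul (a := (D : ℝ≥0∞)) hT (Or.inr (by simp))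
        simpa using this
      rw [h3.liminf_eq]
    have h4 := (lintegral_eq_zero_iff (Measurable.liminf hm)).1 h2
    filter_upwards [h4] with Z hZ using hZ
  filter_upwards [hlim, (hEnv p hp).2.2.2] with Z hZ hc hS
  obtain ⟨c, hc0, hcK⟩ := hc hS
  have hnull : ∀ F : Finset (List ℕ), [] ∈ F → FM mu {ω | ∀ x j, Active Z ω x →
      j < cnt x (ω x) → x ∉ F → ∀ k, walk Z x ((ω x).2 j) k ≠ []} = 0 := by
    intro F hF
    set B := FM mu {ω | ∀ x j, Active Z ω x → j < cnt x (ω x) → x ∉ F → ∀ k,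
      walk Z x ((ω x).2 j) k ≠ []} with hB
    have hle : ∀ n, B ≤ (ENNReal.ofReal (Real.exp (mu * F.card)) * (c : ℝ≥0∞)⁻¹) *
        ∑ J ∈ Finset.range (Z []), YY mu n (sh J Z) := by
      intro n
      have hK : KK n Z ≠ 0 := (lt_of_lt_of_le hc0 (hcK n)).ne'
      refine (hFrog mu n Z F hK hF).trans ?_
      rw [mul_assoc]
      gcongr
      rw [Finset.mul_sum]
      refine Finset.sum_le_sum fun J _ => ?_
      rw [YY, ← mul_assoc]
      gcongr
      rw [div_eq_inv_mul, ENNReal.coe_mul]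
      gcongr
      rw [ENNReal.coe_inv hK]
      exact ENNReal.inv_le_inv.mpr (by exact_mod_cast hcK n)
    have h5 : B ≤ (ENNReal.ofReal (Real.exp (mu * F.card)) * (c : ℝ≥0∞)⁻¹) *
        liminf (fun n => ∑ J ∈ Finset.range (Z []), YY mu n (sh J Z)) atTop := by
      rw [← ENNReal.liminf_const_mul_of_ne_top]
      · exact le_liminf_of_le (by isBoundedDefault) (Eventually.of_forall hle)
      · exact ENNReal.mul_ne_top ENNReal.ofReal_ne_top (by simpa using hc0.ne')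
    rw [hZ (Z []), mul_zero] at h5
    exact le_antisymm h5 zero_le
  have hall : ∀ᵐ ω ∂(FM mu), ∀ F : Finset (List ℕ), [] ∈ F → ¬ (∀ x j, Active Z ω x →
      j < cnt x (ω x) → x ∉ F → ∀ k, walk Z x ((ω x).2 j) k ≠ []) := by
    rw [ae_all_iff]
    intro F
    by_cases hF : [] ∈ F
    · have := hnull F hF
      rw [← compl_mem_ae_iff] at this
      filter_upwards [this] with ω hω _ using hω
    · exact Eventually.of_forall fun ω h => absurd h hF
  filter_upwards [hall] with ω hω hfin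
  refine hω (insert [] (hfin.toFinset.image fun q => q.1.1)) (Finset.mem_insert_self _ _) ?_
  intro x j hx hj hxF k hk
  refine hxF (Finset.mem_insert_of_mem (Finset.mem_image.mpr ⟨((x, j), k), ?_, rfl⟩))
  rw [Set.Finite.mem_toFinset]
  exact ⟨hx, hj, hk⟩

end FrogRec
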