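import Pool.Agent.W852.FG.Stms

/-!
# Recurrence of the frog model on Galton-Watson trees for a large density: definitions

Vertices are words of natural numbers (children of the word `u` are the words `i :: u`), as in
`Pool.Agent.W852.FG.Defs`.
-/

namespace FrogRec

open MeasureTheory ProbabilityTheory Filter FrogGW
open scoped ENNReal NNReal Classical Topology

/-! ## Conductances -/

/-- `kap n Z`: probability that simple random walk started at the root of the tree of `Z` (the
root having an additional neighbour, its parent) hits level `n` before the parent. -/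
noncomputable def kap : ℕ → Env → ℝ≥0
  | 0, _ => 1
  | n + 1, Z => (∑ i ∈ Finset.range (Z []), kap n (sh i Z)) /
      (1 + ∑ i ∈ Finset.range (Z []), kap n (sh i Z))

/-- The sum of the conductances of the children of the root. -/
noncomputable def KK (n : ℕ) (Z : Env) : ℝ≥0 := ∑ i ∈ Finset.range (Z []), kap n (sh i Z)

/-! ## The recursive distributional inequality -/

/-- Total pressure: the least `t` with `a + Σ {λ k : threshold of k at most t} ≤ c t`.  The
threshold of `k` is exponential of rate `κ k`; `(w k).1` is uniform on `[0,1)`. -/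
noncomputable def Sel (a c : ℝ≥0) (κ : ℕ → ℝ≥0) (s : Finset ℕ) (w : ℕ → ℝ × ℝ≥0) : ℝ≥0 :=
  sInf {t : ℝ≥0 | a + ∑ k ∈ s, (if (w k).1 ≤ 1 - Real.exp (-((κ k : ℝ) * (t : ℝ)))
    then (w k).2 else 0) ≤ c * t}

/-- A probability measure equal to `ν` if `ν` is a probability measure. -/
noncomputable def pr (ν : Measure ℝ≥0) : Measure ℝ≥0 :=
  if IsProbabilityMeasure ν then ν else Measure.dirac 0

instance pr_prob (ν : Measure ℝ≥0) : IsProbabilityMeasure (pr ν) := by
  unfold pr
  split_ifs with h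
  · exact h
  · infer_instance

/-- Law of a sequence of pairs (uniform variable, variable of law `ν k`), all independent. -/
noncomputable def WW (ν : ℕ → Measure ℝ≥0) : Measure (ℕ → ℝ × ℝ≥0) :=
  Measure.infinitePi fun k => unif.prod (pr (ν k))

instance WW_prob (ν : ℕ → Measure ℝ≥0) : IsProbabilityMeasure (WW ν) := by
  unfold WW; infer_instance

/-- Law of the pressure at a vertex with `D` children of conductances `κ k`, in terms of the laws
`ν k` of the emission rates of the children; the first particle goes to the child `J` with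
probability `κ J / Σ κ`. -/
noncomputable def star (mu : ℝ≥0) (D : ℕ) (κ : ℕ → ℝ≥0) (ν : ℕ → Measure ℝ≥0) : Measure ℝ≥0 :=
  if ∑ k ∈ Finset.range D, κ k = 0 then Measure.dirac 0 else
  ∑ J ∈ Finset.range D, ((κ J / ∑ k ∈ Finset.range D, κ k : ℝ≥0) : ℝ≥0∞) •
    (WW ν).map (fun w => Sel (mu + (w J).2) (1 + ∑ k ∈ Finset.range D, κ k) κ
      ((Finset.range D).erase J) w)

/-- Conductances of the children of the root. -/
noncomputable def kc (n : ℕ) (Z : Env) (k : ℕ) : ℝ≥0 := if k < Z [] then kap n (sh k Z) else 0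

/-- The laws of the emission rates (given that the first particle is absorbed below). -/
noncomputable def nu (mu : ℝ≥0) : ℕ → Env → Measure ℝ≥0
  | 0, _ => Measure.dirac 0
  | n + 1, Z => star mu (Z []) (kc n Z)
      (fun k => if k < Z [] then nu mu n (sh k Z) else Measure.dirac 0)

/-- Laws of the emission rates of the children of the root. -/
noncomputable def nc (mu : ℝ≥0) (n : ℕ) (Z : Env) (k : ℕ) : Measure ℝ≥0 :=
  if k < Z [] then nu mu n (sh k Z) else Measure.dirac 0

/-- Probability that the child `i` is never entered if the first particle goes to `J ≠ i`. -/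
noncomputable def TT (mu : ℝ≥0) (D : ℕ) (κ : ℕ → ℝ≥0) (ν : ℕ → Measure ℝ≥0) (i J : ℕ) : ℝ≥0∞ :=
  ∫⁻ w, ENNReal.ofReal (Real.exp (-((κ i : ℝ) *
    (Sel (mu + (w J).2) (1 + ∑ k ∈ Finset.range D, κ k) κ
      (((Finset.range D).erase J).erase i) w : ℝ)))) ∂(WW ν)

/-- The function `g(λ/κ)^j`, `g(r) = 1/(1+r/M)`. -/
noncomputable def gg (M : ℝ≥0) (j : ℕ) (κ lam : ℝ≥0) : ℝ≥0 := ((1 + lam / (κ * M))⁻¹) ^ j

/-- Its expectation at the environment `Z`. -/
noncomputable def EG (M mu : ℝ≥0) (j n : ℕ) (Z : Env) : ℝ≥0∞ :=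
  ∫⁻ lam, (gg M j (kap n Z) lam : ℝ≥0∞) ∂(nu mu n Z)

/-- Good children. -/
def Gd (α : ℝ) (m mu κ : ℝ≥0) : Prop := α ≤ κ ∧ (m : ℝ) ≤ mu * (1 - κ)

/-- The loss at a vertex, with the weight `(1+K)/K`. -/
noncomputable def LL (mu : ℝ≥0) (D : ℕ) (κ : ℕ → ℝ≥0) (ν : ℕ → Measure ℝ≥0) : ℝ≥0∞ :=
  ∑ i ∈ Finset.range D, ∑ J ∈ (Finset.range D).erase i,
    ((((∑ k ∈ Finset.range D, κ k) / (1 + ∑ k ∈ Finset.range D, κ k))⁻¹ *
      (κ i / ∑ k ∈ Finset.range D, κ k) * (κ J / ∑ k ∈ Finset.range D, κ k) : ℝ≥0) : ℝ≥0∞) *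
      TT mu D κ ν i J

/-- The loss at the root. -/
noncomputable def Ls (mu : ℝ≥0) (n : ℕ) (Z : Env) : ℝ≥0∞ := LL mu (Z []) (kc n Z) (nc mu n Z)

/-- Weights in the bound of the loss. -/
noncomputable def wt (α B : ℝ) (m mu : ℝ≥0) (D : ℕ) (κ : ℕ → ℝ≥0) (i J : ℕ) : ℝ≥0∞ :=
  (if (((((Finset.range D).erase i).erase J).filter fun k => Gd α m mu (κ k)).card : ℝ) * B
      < 1 + D then 1 else 0) +
    ENNReal.ofReal ((7 / 10 : ℝ) ^ ((1 + (D : ℝ)) / B)) +
    ((((1 + ∑ k ∈ Finset.range D, κ k)⁻¹) ^ 2 : ℝ≥0) : ℝ≥0∞)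

/-- The main functional. -/
noncomputable def Phi (p : Measure ℕ) [IsProbabilityMeasure p] (M mu : ℝ≥0) (n : ℕ) : ℝ≥0∞ :=
  ∫⁻ Z, ∫⁻ Y, ((KK n Y / (KK n Y + kap n Z) : ℝ≥0) : ℝ≥0∞) *
    ((kap n Z : ℝ≥0∞) * EG M mu 1 n Z) ∂(GW p) ∂(GW p)

/-- The gain functional. -/
noncomputable def Gain (p : Measure ℕ) [IsProbabilityMeasure p] (M mu : ℝ≥0) (n : ℕ) : ℝ≥0∞ :=
  ∫⁻ Z, (kap n Z : ℝ≥0∞) * EG M mu 2 n Z ∂(GW p)

/-- The functional with a negative power of the conductance. -/
noncomputable def Psi (p : Measure ℕ) [IsProbabilityMeasure p] (M mu : ℝ≥0) (n : ℕ) : ℝ≥0∞ :=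
  ∫⁻ Z, (((kap n Z)⁻¹ : ℝ≥0) : ℝ≥0∞) * EG M mu 2 n Z ∂(GW p)

/-! ## Closures -/

/-- The least set that contains `U0` and is closed under `T`. -/
noncomputable def clo {L : Type} [Fintype L] [DecidableEq L] (T : Finset L → L → Prop)
    (U0 : Finset L) : Finset L :=
  Finset.univ.filter fun z => ∀ U, U0 ⊆ U → (∀ y, T U y → y ∈ U) → z ∈ U

/-! ## Configurations of classes of particles -/

/-- Probability that the walk started at the vertex `w` hits the parent of `w` before level `N`. -/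
noncomputable def FF (N : ℕ) (Z : Env) (w : List ℕ) : ℝ≥0 := 1 - kap (N - w.length) (sub w Z)

/-- Product of `FF` over the vertices `w` with `t < w ≤ x`: the probability that the walk from
`x` hits its ancestor `t` before level `N`. -/
noncomputable def hh (N : ℕ) (Z : Env) (t : List ℕ) : List ℕ → ℝ≥0
  | [] => if t = [] then 1 else 0
  | i :: v => if i :: v = t then 1 else hh N Z t v * FF N Z (i :: v)

/-- Product of `FF` over the vertices `w` with `t ≤ w < z`: the probability that the walk from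
`t` is absorbed at the vertex `z` of level `N` before it hits the parent of `t`. -/
noncomputable def bt (N : ℕ) (Z : Env) (t : List ℕ) : List ℕ → ℝ≥0
  | [] => if t = [] then 1 else 0
  | i :: v => if i :: v = t then 1 else bt N Z t v * FF N Z v

/-- Probability that the walk from `x` hits the parent of the root before level `N`. -/
noncomputable def GG (N : ℕ) (Z : Env) (x : List ℕ) : ℝ≥0 := FF N Z [] * hh N Z [] x

/-- Indices: (starting point, highest vertex visited, vertex of level `N` that absorbs). -/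
abbrev Ix := List ℕ × List ℕ × List ℕ

/-- Probability that the walk from `x` has highest vertex `t` and is absorbed at `z`. -/
noncomputable def bet (N : ℕ) (Z : Env) (x t z : List ℕ) : ℝ≥0 :=
  if x ∈ vert Z N ∧ z ∈ lev Z N ∧ t <:+ x ∧ t <:+ z then hh N Z t x * bt N Z t z else 0

/-- Law of a bit which is false with probability `exp (-q)`. -/
noncomputable def bern (q : ℝ≥0) : Measure Bool :=
  ENNReal.ofReal (1 - Real.exp (-(q : ℝ))) • Measure.dirac true +
    ENNReal.ofReal (Real.exp (-(q : ℝ))) • Measure.dirac false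

instance bern_prob (q : ℝ≥0) : IsProbabilityMeasure (bern q) := by
  constructor
  have h1 : Real.exp (-(q : ℝ)) ≤ 1 := Real.exp_le_one_iff.mpr (by simp)
  simp only [bern, Measure.coe_add, Measure.coe_smul, Pi.add_apply, Pi.smul_apply, measure_univ,
    smul_eq_mul, mul_one]
  rw [← ENNReal.ofReal_add (by linarith) (Real.exp_pos _).le]
  simp

/-- The law of the bits there is a particle starting at `x` with highest vertex `t` and absorbed
at `z`. -/
noncomputable def PB (mu : ℝ≥0) (N : ℕ) (Z : Env) : Measure (Ix → Bool) :=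
  Measure.infinitePi fun i : Ix => bern (mu * bet N Z i.1 i.2.1 i.2.2)

instance PB_prob (mu : ℝ≥0) (N : ℕ) (Z : Env) : IsProbabilityMeasure (PB mu N Z) := by
  unfold PB; infer_instance

/-- Opened vertices if particles absorbed at the elements of `S` enter at the root. -/
inductive Opn (N : ℕ) (η : Ix → Bool) (S : Set (List ℕ)) : List ℕ → Prop
  | start {z y : List ℕ} : z ∈ S → y <:+ z → y.length < N → Opn N η S y
  | step {x t z y : List ℕ} : Opn N η S x → η (x, t, z) = true → t <:+ y → y <:+ z →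
      y.length < N → Opn N η S y

/-- Emission rate to the parent of the root. -/
noncomputable def Lam (mu : ℝ≥0) (N : ℕ) (Z : Env) (η : Ix → Bool) (S : Set (List ℕ)) : ℝ≥0 :=
  mu * ∑ x ∈ vert Z N, if Opn N η S x then GG N Z x else 0

/-- The configuration of the subtree of the child `i` of the root. -/
def inner (i : ℕ) (η : Ix → Bool) : Ix → Bool :=
  fun j => η (j.1 ++ [i], j.2.1 ++ [i], j.2.2 ++ [i])

/-- Pressure at the root of a tree of height `n + 1` if the leaves in `U` are entered. -/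
noncomputable def Lin (mu : ℝ≥0) (n : ℕ) (Z : Env) (ω : Fin (Z []) → Ix → Bool)
    (U : Finset (List ℕ)) : ℝ≥0 :=
  FF (n + 1) Z [] * (mu + ∑ i : Fin (Z []), Lam mu n (sh i Z) (ω i) {z | z ++ [(i : ℕ)] ∈ U})

/-- Weight of a leaf. -/
noncomputable def bq (n : ℕ) (Z : Env) (y : List ℕ) : ℝ≥0 :=
  bt (n + 1) Z [] y / FF (n + 1) Z []

/-- The leaves entered in the threshold process. -/
noncomputable def Cl (mu : ℝ≥0) (n : ℕ) (Z : Env) (ω : Fin (Z []) → Ix → Bool) (z0 : List ℕ)
    (x : List ℕ → ℝ) : Finset (List ℕ) :=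
  (lev Z (n + 1)).filter fun z => ∀ U ⊆ lev Z (n + 1), z0 ∈ U →
    (∀ y ∈ lev Z (n + 1), x y ≤ 1 - Real.exp (-((bq n Z y : ℝ) * (Lin mu n Z ω U : ℝ))) →
      y ∈ U) → z ∈ U

/-- Law of the emission rate of the child `k` of the root if a particle absorbed at `z` enters. -/
noncomputable def lawz (mu : ℝ≥0) (n : ℕ) (Z : Env) (k : ℕ) (z : List ℕ) : Measure ℝ≥0 :=
  (PB mu n (sh k Z)).map fun η => Lam mu n (sh k Z) η {z}

/-- The same if the absorbing leaf is random. -/
noncomputable def nuF (mu : ℝ≥0) (n : ℕ) (Z : Env) (k : ℕ) : Measure ℝ≥0 :=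
  if k < Z [] ∧ kap n (sh k Z) ≠ 0 then
    ∑ z ∈ lev (sh k Z) n, ((bt n (sh k Z) [] z / kap n (sh k Z) : ℝ≥0) : ℝ≥0∞) • lawz mu n Z k z
  else Measure.dirac 0

/-! ## Classes of trajectories -/

/-- The walk from `x` driven by `u` is absorbed at the vertex `z` of level `N`, and `t` is the
highest vertex that it visits before. -/
def CE (Z : Env) (N : ℕ) (x t z : List ℕ) (u : ℕ → ℝ) : Prop :=
  ∃ k, walk Z x u k = z ∧ z.length = N ∧ (∀ k' < k, (walk Z x u k').length < N) ∧
    (∃ k' ≤ k, walk Z x u k' = t) ∧ ∀ k' ≤ k, t <:+ walk Z x u k'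

/-- The walk from `x` driven by `u` visits the root before level `N`. -/
def VE (Z : Env) (N : ℕ) (x : List ℕ) (u : ℕ → ℝ) : Prop :=
  ∃ k, walk Z x u k = [] ∧ ∀ k' ≤ k, (walk Z x u k').length < N

/-- The configuration of the subtree of the child `J` of the root in the frog model. -/
noncomputable def etaJ (Z : Env) (N J : ℕ) (ω : Conf) : Ix → Bool := fun j =>
  decide (∃ l < (ω (j.1 ++ [J])).1, j.2.2 ++ [J] ∈ lev Z N ∧ j.1 ++ [J] ∈ vert Z N ∧
    CE Z N (j.1 ++ [J]) (j.2.1 ++ [J]) (j.2.2 ++ [J]) ((ω (j.1 ++ [J])).2 l))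

end FrogRec
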