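import Pool.Agent.W626.FR.Stms

/-!
# The averaged loss
-/

namespace FrogRec

open MeasureTheory ProbabilityTheory Filter FrogGW
open scoped ENNReal NNReal Classical Topology

theorem wt_congr (α B : ℝ) (m mu : ℝ≥0) (D : ℕ) (κ κ' : ℕ → ℝ≥0) (i J : ℕ)
    (h : ∀ k < D, κ k = κ' k) : wt α B m mu D κ i J = wt α B m mu D κ' i J := by
  have h1 : ((((Finset.range D).erase i).erase J).filter fun k => Gd α m mu (κ k)) =
      (((Finset.range D).erase i).erase J).filter fun k => Gd α m mu (κ' k) := by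
    refine Finset.filter_congr fun k hk => ?_
    rw [h k (Finset.mem_range.mp (Finset.mem_of_mem_erase (Finset.mem_of_mem_erase hk)))]
  have h2 : ∑ k ∈ Finset.range D, κ k = ∑ k ∈ Finset.range D, κ' k :=
    Finset.sum_congr rfl fun k hk => h k (Finset.mem_range.mp hk)
  unfold wt
  rw [h1, h2]

theorem meas_Gd (α : ℝ) (m mu : ℝ≥0) : MeasurableSet {κ : ℝ≥0 | Gd α m mu κ} := by
  have h1 : MeasurableSet {κ : ℝ≥0 | α ≤ (κ : ℝ)} :=
    measurableSet_le measurable_const measurable_coe_nnreal_real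
  have h2 : MeasurableSet {κ : ℝ≥0 | (m : ℝ) ≤ mu * (1 - (κ : ℝ))} :=
    measurableSet_le measurable_const ((measurable_const.sub measurable_coe_nnreal_real).const_mul _)
  exact h1.inter h2

theorem meas_card {X : Type} [MeasurableSpace X] (gd : Set X) (hgd : MeasurableSet gd)
    (s : Finset ℕ) : Measurable fun Y : ℕ → X => ((s.filter fun l => Y l ∈ gd).card : ℝ) := by
  have : (fun Y : ℕ → X => ((s.filter fun l => Y l ∈ gd).card : ℝ)) =
      fun Y => ∑ l ∈ s, if Y l ∈ gd then (1 : ℝ) else 0 := by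
    funext Y
    rw [Finset.card_filter]
    push_cast
    rfl
  rw [this]
  refine Finset.measurable_sum _ fun l _ => ?_
  exact Measurable.ite ((measurable_pi_apply l) hgd) measurable_const measurable_const

theorem meas_lam (hMZ : TaskMeasZ) (M mu : ℝ≥0) (j n : ℕ) : Measurable fun Z => EG M mu j n Z := by
  refine hMZ.1 (n + 1) _ _ fun Z Z' h => ?_
  obtain ⟨h1, h2⟩ := hMZ.2.1 n Z Z' h
  rw [EG, EG, h1, h2 mu]

theorem meas_kap (hMZ : TaskMeasZ) (n : ℕ) : Measurable fun Z => kap n Z :=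
  hMZ.1 (n + 1) _ _ fun Z Z' h => (hMZ.2.1 n Z Z' h).1

theorem lb (hKap : TaskKap) (hMZ : TaskMeasZ) (hEnv : TaskEnv) (hNu : TaskNu) (hGood : TaskGood)
    (hN1 : TaskN1) (hN2 : TaskN2) (hLQ : TaskLossQ) (hDS : TaskDS2) (hAt : TaskAtyp)
    (hTree : TaskTree) : TaskLB := by
  intro p _ hp
  obtain ⟨α, hα, hα1, pg, hpg, hpg1, hG⟩ := hGood p hp
  have hB : (1 : ℝ) ≤ 4 / pg := by
    rw [le_div_iff₀ hpg]; linarith
  obtain ⟨C1, hC1⟩ := hLQ α (4 / pg) hα hα1 hB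
  obtain ⟨C2, hC2⟩ := hAt pg hpg hpg1
  obtain ⟨c, hc, hcK⟩ := (hEnv p hp).2.1
  obtain ⟨N4, hN4⟩ : ∃ C : ℝ≥0, ∀ n,
      ∫⁻ Z, ((((kap n Z)⁻¹) ^ 4 : ℝ≥0) : ℝ≥0∞) ∂(GW p) ≤ C := by
    have h1 := hN2 p hp 1 le_rfl (by
      obtain ⟨C, hC⟩ := hN1 p hp
      exact ⟨C, fun n => by simpa using hC n⟩)
    have h2 := hN2 p hp (2 * 1) (by norm_num) h1
    simpa using h2
  refine ⟨C1 * (C2 + 4 / c ^ 2) * N4, fun M hM => ?_⟩
  obtain ⟨mu1, hmu1⟩ := hG (max M (Real.toNNReal (16 * (4 / pg) / α)))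
  set m : ℝ≥0 := max M (Real.toNNReal (16 * (4 / pg) / α)) with hm
  refine ⟨max m mu1, (le_max_left _ _).trans (le_max_left _ _), fun mu hmu n hn => ?_⟩
  have hmmu : m ≤ mu := (le_max_left _ _).trans hmu
  have hmu1' : mu1 ≤ mu := (le_max_right _ _).trans hmu
  have hMm : M ≤ m := le_max_left _ _
  have hmB : 16 * (4 / pg) / α ≤ (m : ℝ) :=
    (Real.le_coe_toNNReal _).trans (by exact_mod_cast le_max_right _ _)
  -- the functions
  have mk := meas_kap hMZ n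
  have mf : Measurable fun Z : Env => ((((kap n Z)⁻¹) ^ 4 : ℝ≥0) : ℝ≥0∞) :=
    ((mk.inv).pow_const 4).coe_nnreal_ennreal
  have mh : Measurable fun Z : Env => (((kap n Z)⁻¹ : ℝ≥0) : ℝ≥0∞) * EG M mu 2 n Z :=
    ((mk.inv).coe_nnreal_ennreal).mul (meas_lam hMZ M mu 2 n)
  set f : Env → ℝ≥0∞ := fun Z => ((((kap n Z)⁻¹) ^ 4 : ℝ≥0) : ℝ≥0∞) with hf
  set h : Env → ℝ≥0∞ := fun Z => (((kap n Z)⁻¹ : ℝ≥0) : ℝ≥0∞) * EG M mu 2 n Z with hh
  set gd : Set Env := {Z | Gd α m mu (kap n Z)} with hgd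
  have mgd : MeasurableSet gd := mk (meas_Gd α m mu)
  set G1 : ℕ → (ℕ → Env) → ℝ≥0∞ := fun k Y => ∑ i ∈ Finset.range k,
      ∑ j ∈ (Finset.range k).erase i, f (Y i) * h (Y j) *
        ((if (((((Finset.range k).erase i).erase j).filter fun l => Y l ∈ gd).card : ℝ) *
            (4 / pg) < 1 + k then 1 else 0) +
          ENNReal.ofReal ((7 / 10 : ℝ) ^ ((1 + (k : ℝ)) / (4 / pg)))) with hG1
  set G2 : ℕ → (ℕ → Env) → ℝ≥0∞ := fun k Y => ∑ i ∈ Finset.range k,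
      ∑ j ∈ (Finset.range k).erase i, f (Y i) * h (Y j) *
        ((((1 + ∑ l ∈ Finset.range k, kap n (Y l))⁻¹) ^ 2 : ℝ≥0) : ℝ≥0∞) with hG2
  have mG1 : ∀ k, Measurable (G1 k) := by
    intro k
    refine Finset.measurable_sum _ fun i _ => Finset.measurable_sum _ fun j _ => ?_
    refine ((mf.comp (measurable_pi_apply i)).mul (mh.comp (measurable_pi_apply j))).mul ?_
    refine Measurable.add ?_ measurable_const
    exact Measurable.ite (measurableSet_lt ((meas_card gd mgd _).mul_const _) measurable_const)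
      measurable_const measurable_const
  have mG2 : ∀ k, Measurable (G2 k) := by
    intro k
    refine Finset.measurable_sum _ fun i _ => Finset.measurable_sum _ fun j _ => ?_
    refine ((mf.comp (measurable_pi_apply i)).mul (mh.comp (measurable_pi_apply j))).mul ?_
    refine (Measurable.pow_const ?_ 2).coe_nnreal_ennreal
    exact (measurable_const.add (Finset.measurable_sum _ fun l _ =>
      mk.comp (measurable_pi_apply l))).inv
  -- pointwise bound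
  have hpt : ∀ Z : Env, Ls mu n Z ≤ ((C1 / M ^ 2 : ℝ≥0) : ℝ≥0∞) *
      (G1 (Z []) (fun i => sh i Z) + G2 (Z []) (fun i => sh i Z)) := by
    intro Z
    by_cases hK : ∑ k ∈ Finset.range (Z []), kc n Z k = 0
    · have : Ls mu n Z = 0 := by
        unfold Ls LL
        rw [hK]
        simp
      rw [this]; exact zero_le
    have key := hC1 M m mu hM hMm hmB hmmu (Z []) (kc n Z) (nc mu n Z)
      (fun k => by
        unfold kc; split_ifs
        · exact hKap.1 n _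
        · simp)
      (fun k => by
        unfold nc; split_ifs
        · exact hNu.2.1 mu n _
        · infer_instance)
      (fun k hk hk0 => by
        unfold nc
        simp only [hk, if_true]
        have e : kc n Z k = kap n (sh k Z) := by unfold kc; simp [hk]
        rw [e] at hk0 ⊢
        exact hNu.2.2.2 mu n (sh k Z) hn hk0) hK
    refine key.trans ?_
    gcongr
    rw [← Finset.sum_add_distrib]
    refine Finset.sum_le_sum fun i hi => ?_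
    rw [← Finset.sum_add_distrib]
    refine Finset.sum_le_sum fun J hJ => ?_
    have hi' := Finset.mem_range.mp hi
    have hJ' := Finset.mem_range.mp (Finset.mem_of_mem_erase hJ)
    rw [wt_congr α (4 / pg) m mu (Z []) (kc n Z) (fun l => kap n (sh l Z)) i J
      (fun k hk => by unfold kc; simp [hk])]
    have e1 : kc n Z i = kap n (sh i Z) := by unfold kc; simp [hi']
    have e2 : kc n Z J = kap n (sh J Z) := by unfold kc; simp [hJ']
    have e3 : nc mu n Z J = nu mu n (sh J Z) := by unfold nc; simp [hJ']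
    rw [e1, e2, e3]
    rw [← mul_add]
    apply le_of_eq
    rw [hf, hh]
    simp only [EG, wt, hgd, Set.mem_ofPred_eq, ENNReal.coe_mul]
    ring
  have hmeas : Measurable fun q : ℕ × (ℕ → Env) => G1 q.1 q.2 + G2 q.1 q.2 :=
    measurable_from_prod_countable_right fun k => (mG1 k).add (mG2 k)
  have hint : ∫⁻ Z, (G1 (Z []) (fun i => sh i Z) + G2 (Z []) (fun i => sh i Z)) ∂(GW p) =
      ∫⁻ k, ∫⁻ Y, G1 k Y ∂(Measure.infinitePi fun _ : ℕ => GW p) ∂p +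
      ∫⁻ k, ∫⁻ Y, G2 k Y ∂(Measure.infinitePi fun _ : ℕ => GW p) ∂p := by
    have h1 := (hTree p).lintegral_comp hmeas
    rw [h1, lintegral_prod _ hmeas.aemeasurable, ← lintegral_add_left (measurable_of_countable _)]
    refine lintegral_congr fun k => ?_
    exact lintegral_add_left (mG1 k) _
  have b1 : ∫⁻ k, ∫⁻ Y, G1 k Y ∂(Measure.infinitePi fun _ : ℕ => GW p) ∂p ≤
      C2 * (∫⁻ x, f x ∂(GW p)) * ∫⁻ x, h x ∂(GW p) :=
    hC2 Env (GW p) gd p f h mgd (hmu1 mu hmu1' n hn) mf mh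
  have b2 : ∫⁻ k, ∫⁻ Y, G2 k Y ∂(Measure.infinitePi fun _ : ℕ => GW p) ∂p ≤
      ((4 / c ^ 2 : ℝ≥0) : ℝ≥0∞) * (∫⁻ x, f x ∂(GW p)) * ∫⁻ x, h x ∂(GW p) := by
    have h1 := hDS Env (GW p) (kap n) p f h mk mf mh (hKap.1 n)
    have h2 : (c : ℝ≥0∞) ^ 2 * ∫⁻ k, ∫⁻ Y, G2 k Y ∂(Measure.infinitePi fun _ : ℕ => GW p) ∂p ≤
        4 * (∫⁻ x, f x ∂(GW p)) * ∫⁻ x, h x ∂(GW p) := by
      refine le_trans ?_ h1
      gcongr
      exact hcK n
    have h3 : ((4 / c ^ 2 : ℝ≥0) : ℝ≥0∞) = 4 / (c : ℝ≥0∞) ^ 2 := by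
      rw [ENNReal.coe_div (by positivity)]; simp
    have hc2 : (c : ℝ≥0∞) ^ 2 ≠ 0 := by
      have : (c : ℝ≥0∞) ≠ 0 := by exact_mod_cast hc.ne'
      exact pow_ne_zero 2 this
    have hc2' : (c : ℝ≥0∞) ^ 2 ≠ ∞ := ENNReal.pow_ne_top ENNReal.coe_ne_top
    rw [h3]
    have h4 : 4 / (c : ℝ≥0∞) ^ 2 * (∫⁻ x, f x ∂(GW p)) * ∫⁻ x, h x ∂(GW p) =
        (4 * (∫⁻ x, f x ∂(GW p)) * ∫⁻ x, h x ∂(GW p)) / (c : ℝ≥0∞) ^ 2 := by
      simp only [div_eq_mul_inv]; ring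
    rw [h4, ENNReal.le_div_iff_mul_le (Or.inl hc2) (Or.inl hc2'), mul_comm]
    exact h2
  calc ∫⁻ Z, Ls mu n Z ∂(GW p) ≤ ∫⁻ Z, ((C1 / M ^ 2 : ℝ≥0) : ℝ≥0∞) *
        (G1 (Z []) (fun i => sh i Z) + G2 (Z []) (fun i => sh i Z)) ∂(GW p) :=
        lintegral_mono hpt
    _ = ((C1 / M ^ 2 : ℝ≥0) : ℝ≥0∞) * ∫⁻ Z,
        (G1 (Z []) (fun i => sh i Z) + G2 (Z []) (fun i => sh i Z)) ∂(GW p) := by
        rw [lintegral_const_mul' _ _ ENNReal.coe_ne_top]
    _ ≤ ((C1 / M ^ 2 : ℝ≥0) : ℝ≥0∞) * (C2 * (∫⁻ x, f x ∂(GW p)) * (∫⁻ x, h x ∂(GW p)) +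
        ((4 / c ^ 2 : ℝ≥0) : ℝ≥0∞) * (∫⁻ x, f x ∂(GW p)) * ∫⁻ x, h x ∂(GW p)) := by
        rw [hint]; gcongr
    _ = ((C1 / M ^ 2 : ℝ≥0) : ℝ≥0∞) * ((C2 + ((4 / c ^ 2 : ℝ≥0) : ℝ≥0∞)) *
        (∫⁻ x, f x ∂(GW p)) * ∫⁻ x, h x ∂(GW p)) := by ring
    _ ≤ ((C1 / M ^ 2 : ℝ≥0) : ℝ≥0∞) * ((C2 + ((4 / c ^ 2 : ℝ≥0) : ℝ≥0∞)) *
        N4 * Psi p M mu n) := by
        gcongr
        · exact hN4 n
        · exact le_rfl
    _ = ((C1 * (C2 + 4 / c ^ 2) * N4 / M ^ 2 : ℝ≥0) : ℝ≥0∞) * Psi p M mu n := by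
        have : (C1 * (C2 + 4 / c ^ 2) * N4 / M ^ 2 : ℝ≥0) =
          (C1 / M ^ 2) * ((C2 + 4 / c ^ 2) * N4) := by ring
        rw [this]
        push_cast
        ring

end FrogRec
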