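import Pool.Agent.W626.FR.Stms

/-!
# The first negative moment of the conductance
-/

namespace FrogRec

open MeasureTheory ProbabilityTheory Filter FrogGW
open scoped ENNReal NNReal Classical Topology

theorem inv_sum_le (k : ℕ) (κ : ℕ → ℝ≥0) :
    (((∑ l ∈ Finset.range k, κ l)⁻¹ : ℝ≥0) : ℝ≥0∞) ≤
      ∑ i ∈ Finset.range k, (if ∀ j < k, j ≠ i → κ j = 0 then (((κ i)⁻¹ : ℝ≥0) : ℝ≥0∞) else 0) +
      (if ∃ a < k, ∃ b < k, a ≠ b ∧ κ a ≠ 0 ∧ κ b ≠ 0 then
        (((∑ l ∈ Finset.range k, κ l)⁻¹ : ℝ≥0) : ℝ≥0∞) else 0) := by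
  by_cases h : ∃ a < k, ∃ b < k, a ≠ b ∧ κ a ≠ 0 ∧ κ b ≠ 0
  · rw [if_pos h]; exact le_add_self
  rw [if_neg h, add_zero]
  by_cases h0 : ∀ i < k, κ i = 0
  · rw [Finset.sum_eq_zero fun i hi => h0 i (Finset.mem_range.mp hi)]
    simp
  push Not at h0
  obtain ⟨i, hi, hi0⟩ := h0
  have h1 : ∀ j < k, j ≠ i → κ j = 0 := by
    intro j hj hji
    by_contra hj0
    exact h ⟨j, hj, i, hi, hji, hj0, hi0⟩
  have h2 : ∑ l ∈ Finset.range k, κ l = κ i :=
    Finset.sum_eq_single i (fun j hj hji => h1 j (Finset.mem_range.mp hj) hji)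
      (fun hn => absurd (Finset.mem_range.mpr hi) hn)
  rw [h2]
  refine le_trans ?_ (Finset.single_le_sum (f := fun i => (if ∀ j < k, j ≠ i → κ j = 0 then
    (((κ i)⁻¹ : ℝ≥0) : ℝ≥0∞) else 0)) (fun _ _ => zero_le) (Finset.mem_range.mpr hi))
  rw [if_pos h1]

theorem meas_one {X : Type} [MeasurableSpace X] (κ : X → ℝ≥0) (hκ : Measurable κ) (k i : ℕ) :
    MeasurableSet {Y : ℕ → X | ∀ j < k, j ≠ i → κ (Y j) = 0} := by
  have : {Y : ℕ → X | ∀ j < k, j ≠ i → κ (Y j) = 0} =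
      ⋂ j, ⋂ (_ : j < k), ⋂ (_ : j ≠ i), {Y | κ (Y j) = 0} := by
    ext Y; simp
  rw [this]
  refine MeasurableSet.iInter fun j => MeasurableSet.iInter fun _ => MeasurableSet.iInter fun _ =>
    ?_
  exact (hκ.comp (measurable_pi_apply j)) (measurableSet_singleton 0)

theorem meas_two {X : Type} [MeasurableSpace X] (κ : X → ℝ≥0) (hκ : Measurable κ) (k : ℕ) :
    MeasurableSet {Y : ℕ → X | ∃ a < k, ∃ b < k, a ≠ b ∧ κ (Y a) ≠ 0 ∧ κ (Y b) ≠ 0} := by
  have : {Y : ℕ → X | ∃ a < k, ∃ b < k, a ≠ b ∧ κ (Y a) ≠ 0 ∧ κ (Y b) ≠ 0} =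
      ⋃ a, ⋃ (_ : a < k), ⋃ b, ⋃ (_ : b < k), ⋃ (_ : a ≠ b),
        ({Y | κ (Y a) = 0}ᶜ ∩ {Y | κ (Y b) = 0}ᶜ) := by
    ext Y
    simp only [Set.mem_iUnion, Set.mem_inter_iff, Set.mem_compl_iff, Set.mem_ofPred_eq,
      exists_prop, ne_eq]
  rw [this]
  refine MeasurableSet.iUnion fun a => MeasurableSet.iUnion fun _ => MeasurableSet.iUnion fun b =>
    MeasurableSet.iUnion fun _ => MeasurableSet.iUnion fun _ => ?_
  exact ((hκ.comp (measurable_pi_apply a)) (measurableSet_singleton 0)).compl.inter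
    ((hκ.comp (measurable_pi_apply b)) (measurableSet_singleton 0)).compl

theorem meas_kap' (hMZ : TaskMeasZ) (n : ℕ) : Measurable fun Z => kap n Z :=
  hMZ.1 (n + 1) _ _ fun Z Z' h => (hMZ.2.1 n Z Z' h).1

theorem kap_succ_inv_le (n : ℕ) (Z : Env) :
    (((kap (n + 1) Z)⁻¹ : ℝ≥0) : ℝ≥0∞) ≤ 1 +
      (((∑ l ∈ Finset.range (Z []), kap n (sh l Z))⁻¹ : ℝ≥0) : ℝ≥0∞) := by
  rw [kap]
  set K := ∑ l ∈ Finset.range (Z []), kap n (sh l Z)
  have : (K / (1 + K))⁻¹ ≤ 1 + K⁻¹ := by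
    by_cases h : K = 0
    · simp [h]
    · rw [inv_div, add_div, div_self h, one_div, add_comm]
  exact_mod_cast this

theorem kap_succ_eq_zero (n : ℕ) (Z : Env) :
    kap (n + 1) Z = 0 ↔ ∀ i < Z [], kap n (sh i Z) = 0 := by
  rw [kap, div_eq_zero_iff]
  have h1 : (1 + ∑ i ∈ Finset.range (Z []), kap n (sh i Z)) ≠ 0 := by positivity
  simp only [h1, or_false]
  rw [Finset.sum_eq_zero_iff]
  simp

/-- The generating function. -/
theorem zero_succ (hMZ : TaskMeasZ) (hTree : TaskTree) (p : Measure ℕ) [IsProbabilityMeasure p]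
    (n : ℕ) : GW p {Z | kap (n + 1) Z = 0} = ∑' k, p {k} * GW p {Z | kap n Z = 0} ^ k := by
  have mk := meas_kap' hMZ n
  set A : Set Env := {Z | kap n Z = 0} with hA
  have mA : MeasurableSet A := mk (measurableSet_singleton 0)
  have mS : MeasurableSet {q : ℕ × (ℕ → Env) | ∀ i < q.1, q.2 i ∈ A} := by
    have : {q : ℕ × (ℕ → Env) | ∀ i < q.1, q.2 i ∈ A} =
        ⋃ k : ℕ, ({k} : Set ℕ) ×ˢ (⋂ i, ⋂ (_ : i < k), {Y : ℕ → Env | Y i ∈ A}) := by
      ext ⟨k, Y⟩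
      simp
    rw [this]
    refine MeasurableSet.iUnion fun k => (measurableSet_singleton k).prod ?_
    exact MeasurableSet.iInter fun i => MeasurableSet.iInter fun _ => (measurable_pi_apply i) mA
  have h1 : {Z : Env | kap (n + 1) Z = 0} =
      (fun Z : Env => (Z [], fun i : ℕ => sh i Z)) ⁻¹' {q | ∀ i < q.1, q.2 i ∈ A} := by
    ext Z
    exact kap_succ_eq_zero n Z
  rw [h1, (hTree p).measure_preimage mS.nullMeasurableSet, Measure.prod_apply mS]
  have h2 : ∀ k : ℕ, (Measure.infinitePi fun _ : ℕ => GW p)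
      (Prod.mk k ⁻¹' {q : ℕ × (ℕ → Env) | ∀ i < q.1, q.2 i ∈ A}) = GW p A ^ k := by
    intro k
    have : (Prod.mk k ⁻¹' {q : ℕ × (ℕ → Env) | ∀ i < q.1, q.2 i ∈ A}) =
        Set.pi (Finset.range k) fun _ : ℕ => A := by
      ext Y; simp
    rw [this, Measure.infinitePi_pi _ (fun i _ => mA)]
    simp
  simp_rw [h2]
  rw [lintegral_countable']
  refine tsum_congr fun k => mul_comm _ _

theorem n1 (hKap : TaskKap) (hMZ : TaskMeasZ) (hEnv : TaskEnv) (hSing : TaskSing)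
    (hPair1 : TaskPair1) (hTree : TaskTree) : TaskN1 := by
  intro p _ hp
  obtain ⟨z, hz1, hzn, hzF⟩ := (hEnv p hp).1
  set F1 : ℝ≥0∞ → ℝ≥0∞ := fun q => ∑' k, p {k} * ((k : ℝ≥0∞) * q ^ (k - 1)) with hF1
  set r := F1 z with hr
  have hr1 : r < 1 := hzF
  set B : ℕ → ℝ≥0∞ := fun n => ∫⁻ Z, (((kap n Z)⁻¹ : ℝ≥0) : ℝ≥0∞) ∂(GW p) with hB
  have hrec : ∀ n, B (n + 1) ≤ 1 + (r + 1) / 2 * B n := by
    intro n
    have mk := meas_kap' hMZ n
    set q := GW p {Z | kap n Z = 0} with hq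
    have hqz : q ≤ z := hzn n
    have hq1 : q < 1 := hqz.trans_lt hz1
    have hFq : F1 q ≤ r := by
      rw [hr, hF1]
      refine ENNReal.tsum_le_tsum fun k => ?_
      gcongr
    have hF1le : F1 q ≤ 1 := hFq.trans hr1.le
    have mf : Measurable fun Z : Env => (((kap n Z)⁻¹ : ℝ≥0) : ℝ≥0∞) :=
      (mk.inv).coe_nnreal_ennreal
    set f : Env → ℝ≥0∞ := fun Z => (((kap n Z)⁻¹ : ℝ≥0) : ℝ≥0∞) with hf
    set G1 : ℕ → (ℕ → Env) → ℝ≥0∞ := fun k Y => ∑ i ∈ Finset.range k,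
        (if ∀ j < k, j ≠ i → kap n (Y j) = 0 then f (Y i) else 0) with hG1
    set G2 : ℕ → (ℕ → Env) → ℝ≥0∞ := fun k Y =>
        (if ∃ a < k, ∃ b < k, a ≠ b ∧ kap n (Y a) ≠ 0 ∧ kap n (Y b) ≠ 0 then
          (((∑ l ∈ Finset.range k, kap n (Y l))⁻¹ : ℝ≥0) : ℝ≥0∞) else 0) with hG2
    have mG1 : ∀ k, Measurable (G1 k) := fun k =>
      Finset.measurable_sum _ fun i _ => Measurable.ite (meas_one _ mk k i)
        (mf.comp (measurable_pi_apply i)) measurable_const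
    have mG2 : ∀ k, Measurable (G2 k) := fun k =>
      Measurable.ite (meas_two _ mk k) ((Finset.measurable_sum _ fun l _ =>
        mk.comp (measurable_pi_apply l)).inv.coe_nnreal_ennreal) measurable_const
    have hmeas' : Measurable fun q : ℕ × (ℕ → Env) => (G1 q.1 q.2 + G2 q.1 q.2) :=
      measurable_from_prod_countable_right fun k => (mG1 k).add (mG2 k)
    have hpt : ∀ Z : Env, (((kap (n + 1) Z)⁻¹ : ℝ≥0) : ℝ≥0∞) ≤
        1 + (G1 (Z []) (fun i => sh i Z) + G2 (Z []) (fun i => sh i Z)) := by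
      intro Z
      refine (kap_succ_inv_le n Z).trans ?_
      gcongr
      exact inv_sum_le (Z []) fun l => kap n (sh l Z)
    have hE1 := hSing Env (GW p) (kap n) p f mk mf
    have hE2 := hPair1 Env (GW p) (kap n) p mk
    set E2 := ∫⁻ k, ∫⁻ Y, G2 k Y ∂(Measure.infinitePi fun _ : ℕ => GW p) ∂p with hE2d
    have hstep : B (n + 1) ≤ 1 + (F1 q * B n + E2) := by
      calc B (n + 1) ≤ ∫⁻ Z, (1 + (G1 (Z []) (fun i => sh i Z) + G2 (Z []) (fun i => sh i Z)))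
            ∂(GW p) := lintegral_mono hpt
        _ = 1 + ∫⁻ Z, (G1 (Z []) (fun i => sh i Z) + G2 (Z []) (fun i => sh i Z)) ∂(GW p) := by
            rw [lintegral_add_left measurable_const]; simp
        _ = 1 + (F1 q * B n + E2) := by
            congr 1
            rw [(hTree p).lintegral_comp hmeas', lintegral_prod _ hmeas'.aemeasurable,
              ← hE1, ← lintegral_add_left (measurable_of_countable _)]
            refine lintegral_congr fun k => ?_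
            exact lintegral_add_left (mG1 k) _
    have hFq' : q ≤ ∑' k, p {k} * q ^ k := by
      rw [← zero_succ hMZ hTree p n]
      refine measure_mono fun Z hZ => ?_
      have h0 : kap n Z = 0 := hZ
      have := hKap.2.1 n Z
      rw [h0] at this
      exact le_antisymm this zero_le
    have hE2' : 2 * E2 ≤ (1 - F1 q) * B n := by
      have h1 : 2 * (1 - q) * E2 ≤ ((1 - F1 q) * (1 - q)) * B n := by
        refine hE2.trans ?_
        gcongr
        rw [ENNReal.sub_mul (fun _ _ => (tsub_le_self.trans_lt ENNReal.one_lt_top).ne), one_mul]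
        gcongr
      have hq0 : (1 - q) ≠ 0 := (tsub_pos_of_lt hq1).ne'
      have hqt : (1 - q) ≠ ∞ := (tsub_le_self.trans_lt ENNReal.one_lt_top).ne
      refine (ENNReal.mul_le_mul_iff_right hq0 hqt).mp ?_
      calc (1 - q) * (2 * E2) = 2 * (1 - q) * E2 := by ring
        _ ≤ ((1 - F1 q) * (1 - q)) * B n := h1
        _ = (1 - q) * ((1 - F1 q) * B n) := by ring
    refine hstep.trans ?_
    gcongr
    have h2 : 2 * (F1 q * B n + E2) ≤ 2 * ((r + 1) / 2 * B n) := by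
      calc 2 * (F1 q * B n + E2) = 2 * (F1 q * B n) + 2 * E2 := by ring
        _ ≤ 2 * (F1 q * B n) + (1 - F1 q) * B n := by gcongr
        _ = (F1 q + (F1 q + (1 - F1 q))) * B n := by ring
        _ = (F1 q + 1) * B n := by rw [add_tsub_cancel_of_le hF1le]
        _ ≤ (r + 1) * B n := by gcongr
        _ = 2 * ((r + 1) / 2 * B n) := by
            rw [← mul_assoc, ENNReal.mul_div_cancel (by norm_num) (by norm_num)]
    exact (ENNReal.mul_le_mul_iff_right (by norm_num) (by norm_num)).mp h2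
  -- the constant
  set ρ : ℝ≥0 := ((r + 1) / 2).toNNReal with hρ
  have hrt : (r + 1) / 2 ≠ ∞ := by
    refine ENNReal.div_ne_top (ENNReal.add_ne_top.mpr ⟨hr1.ne_top, by norm_num⟩) (by norm_num)
  have hρc : (ρ : ℝ≥0∞) = (r + 1) / 2 := ENNReal.coe_toNNReal hrt
  have hρ1 : ρ < 1 := by
    have : (ρ : ℝ≥0∞) < 1 := by
      rw [hρc]
      refine ENNReal.div_lt_of_lt_mul ?_
      calc r + 1 < 1 + 1 := ENNReal.add_lt_add_right (by norm_num) hr1
        _ = 1 * 2 := by norm_num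
    exact_mod_cast this
  refine ⟨1 / (1 - ρ), fun n => ?_⟩
  have h1ρ : 0 < 1 - ρ := tsub_pos_of_lt hρ1
  induction n with
  | zero =>
    have : ∫⁻ Z, (((kap 0 Z)⁻¹ : ℝ≥0) : ℝ≥0∞) ∂(GW p) = 1 := by simp [kap]
    rw [this]
    have : (1 : ℝ≥0) ≤ 1 / (1 - ρ) := by
      rw [le_div_iff₀ h1ρ, one_mul]; exact tsub_le_self
    exact_mod_cast this
  | succ n ih =>
    calc B (n + 1) ≤ 1 + (r + 1) / 2 * B n := hrec n
      _ ≤ 1 + (ρ : ℝ≥0∞) * ((1 / (1 - ρ) : ℝ≥0) : ℝ≥0∞) := by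
          rw [hρc]; gcongr
      _ = ((1 + ρ * (1 / (1 - ρ)) : ℝ≥0) : ℝ≥0∞) := by push_cast; rfl
      _ = ((1 / (1 - ρ) : ℝ≥0) : ℝ≥0∞) := by
          congr 1
          rw [mul_one_div, eq_div_iff h1ρ.ne', add_mul, div_mul_cancel₀ _ h1ρ.ne', one_mul]
          exact tsub_add_cancel_of_le hρ1.le

end FrogRec
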