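import Pool.Agent.W103.FR.Grow2
import Pool.Agent.W12.FR.Kap
import Pool.Agent.W12.FR.Nu
import Pool.Agent.W160.FR.Clos
import Pool.Agent.W160.FR.Poi
import Pool.Agent.W179.FR.R2
import Pool.Agent.W230.FR.Split
import Pool.Agent.W239.FR.Opn
import Pool.Agent.W298.FR.Claim
import Pool.Agent.W298.FR.Dec
import Pool.Agent.W298.FR.Frog
import Pool.Agent.W298.FR.Mono
import Pool.Agent.W351.FR.Comp
import Pool.Agent.W395.FR.Law
import Pool.Agent.W485.FR.Leave
import Pool.Agent.W485.FR.Sel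
import Pool.Agent.W485.FR.Star
import Pool.Agent.W540.FR.LossQ
import Pool.Agent.W616.FR.Atyp
import Pool.Agent.W672.FR.Exch
import Pool.Agent.W672.FR.R1
import Pool.Agent.W672.FR.Rho
import Pool.Agent.W683.FR.Thr
import Pool.Agent.W782.FR.Alg
import Pool.Agent.W782.FR.Walk
import Pool.Agent.W803.FR.Grow1
import Pool.Agent.W86.FR.DS2
import Pool.Agent.W86.FR.Env
import Pool.Agent.W86.FR.Geo
import Pool.Agent.W914.FR.N2
import Pool.Agent.W914.FR.Sing
import Pool.Agent.W935.FR.Red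
import Pool.Agent.W782.FG.Split
import Pool.Agent.W626.FR.Asm
import Pool.Agent.W626.FR.LB
import Pool.Agent.W626.FR.N1

/-!
# Recurrence for a large density
-/

namespace FrogRec

open MeasureTheory ProbabilityTheory Filter FrogGW
open scoped ENNReal NNReal Classical Topology

/-- Recurrence of the frog model on supercritical Galton-Watson trees for a large density. -/
theorem recurrence (p : Measure ℕ) [IsProbabilityMeasure p]
    (hp : Super p) :
    ∃ mu0 : ℝ≥0, ∀ mu, mu0 ≤ mu → ∀ᵐ Z ∂(GW p), Z ∈ Survive → ∀ᵐ ω ∂(FM mu),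
      {q : (List ℕ × ℕ) × ℕ | Active Z ω q.1.1 ∧ q.1.2 < cnt q.1.1 (ω q.1.1) ∧
        walk Z q.1.1 ((ω q.1.1).2 q.1.2) q.2 = []}.Infinite := by
  have hTree : TaskTree := Pool.Agent.W782.FG.tree
  have hKap : TaskKap := Pool.Agent.W12.FR.taskKap
  have hAlg : TaskAlg := Pool.Agent.W782.FR.alg
  have hMZ : TaskMeasZ := Pool.Agent.W12.FR.taskMeasZ hAlg
  have hEnv : TaskEnv := FrogRec.W86Env.env hKap hMZ
  have hSelB : TaskSelB := FrogRec.taskSelB
  have hSelM : TaskSelM := FrogRec.taskSelM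
  have hSelMeas : TaskSelMeas := FrogRec.taskSelMeas
  have hNu : TaskNu := Pool.Agent.W12.FR.taskNu hSelB hSelMeas
  have hGood : TaskGood := Pool.Agent.W12.FR.taskGood hKap hEnv hMZ
  have hSing : TaskSing := Pool.Agent.W914.FR.sing
  have hPair : TaskPair := Pool.Agent.W914.FR.pair
  have hPair1 : TaskPair1 := Pool.Agent.W914.FR.pair1
  have hN1 : TaskN1 := FrogRec.n1 hKap hMZ hEnv hSing hPair1 hTree
  have hN2 : TaskN2 := Pool.Agent.W914.FR.n2 hKap hMZ hEnv hSing hPair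
  have hLeave : TaskLeave := FrogRec.taskLeave
  have hDirect : TaskDirect := FrogRec.taskDirect
  have hStar : TaskStar := FrogRec.taskStar hSelB hSelMeas hLeave
  have hGrow1 : TaskGrow1 := Pool.Agent.W803.FR.grow1 hSelB
  have hGrow2 : TaskGrow2 := Pool.Agent.W103.FR.Grow2.result hSelB hSelMeas hGrow1
  have hRho : TaskRho := W672.FR.taskRho hGrow2
  have hLQ : TaskLossQ := Pool.Agent.W540.FR.lossQ hDirect hRho
  have hDS2 : TaskDS2 := FrogRec.W86DS2.ds2
  have hAtyp : TaskAtyp := Pool.Agent.W616.FR.atyp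
  have hExch : TaskExch := W672.FR.taskExch
  have hLB : TaskLB := FrogRec.lb hKap hMZ hEnv hNu hGood hN1 hN2 hLQ hDS2 hAtyp hTree
  have hR1 : TaskR1 := W672.FR.taskR1 hKap hMZ hEnv hNu hStar hExch
  have hR2 : TaskR2 := W179FR.tr2 hKap hMZ hEnv hN1 hN2 hNu hStar hSing hDS2
  have hSum : TaskSum := Pool.Agent.W12.FR.taskSum
  have hFin : TaskFin := Pool.Agent.W12.FR.taskFin hKap hMZ hNu
  have hRDE : TaskRDE := rde hKap hNu hN1 hLB hR1 hR2 hSum hFin
  have hOpn : TaskOpn := Pool.Agent.W239.FRO.main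
  have hComp : TaskComp2 := Pool.Agent.W351.FR.comp2
  have hMono : TaskMono := Pool.Agent.W298.FR.mono hSelM hSelMeas
  have hSplit : TaskSplit := Pool.Agent.W230.FR.split hAlg
  have hClos : TaskClos := Pool.Agent.W160.FR.clos
  have hDec : TaskDec := Pool.Agent.W298.FR.dec hAlg
  have hThr : TaskThr := Pool.Agent.W683.FR.thr hAlg hOpn hSplit hClos hDec
  have hRed : TaskRed := Pool.Agent.W935.FR.Red.main hAlg hOpn hSelB hSelMeas hComp
  have hClaim : TaskClaim := Pool.Agent.W298.FR.claim hAlg hOpn hNu hThr hRed hMono hSelMeas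
  have hCEm : TaskCEm := Pool.Agent.W782.FR.cem
  have hCEp : TaskCEp := Pool.Agent.W782.FR.cep
  have hPoi : TaskPoi := Pool.Agent.W160.FR.poi
  have hGeo : TaskGeo := FrogRec.W86Geo.geo
  have hLaw : TaskLaw := Pool.Agent.W395.FR.Law.main hAlg hOpn hCEm hCEp hPoi
  have hFrog : TaskFrog := Pool.Agent.W298.FR.frog hAlg hClaim hCEm hCEp hGeo hLaw
  exact recur hFrog hRDE hEnv hMZ hTree p hp

end FrogRec
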