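import Pool.Agent.W626.FR.Defs

/-!
# Recurrence of the frog model on Galton-Watson trees for a large density: the parts
-/

namespace FrogRec

open MeasureTheory ProbabilityTheory Filter FrogGW
open scoped ENNReal NNReal Classical Topology

/-! ## A. The pressure `Sel` (deterministic facts) -/

/-- Equation, minimality, lower bound. -/
def TaskSelB : Prop :=
  ∀ (a c : ℝ≥0) (κ : ℕ → ℝ≥0) (s : Finset ℕ) (w : ℕ → ℝ × ℝ≥0), 0 < c →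
    (a + ∑ k ∈ s, (if (w k).1 ≤ 1 - Real.exp (-((κ k : ℝ) * (Sel a c κ s w : ℝ)))
      then (w k).2 else 0) = c * Sel a c κ s w) ∧
    (∀ t : ℝ≥0, a + ∑ k ∈ s, (if (w k).1 ≤ 1 - Real.exp (-((κ k : ℝ) * (t : ℝ)))
      then (w k).2 else 0) ≤ c * t → Sel a c κ s w ≤ t) ∧
    a / c ≤ Sel a c κ s w

/-- Monotonicity and leaving one child out. -/
def TaskSelM : Prop :=
  (∀ (a a' c : ℝ≥0) (κ : ℕ → ℝ≥0) (s s' : Finset ℕ) (w w' : ℕ → ℝ × ℝ≥0), 0 < c → a ≤ a' →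
    s ⊆ s' → (∀ k ∈ s, (w k).1 = (w' k).1 ∧ (w k).2 ≤ (w' k).2) →
    Sel a c κ s w ≤ Sel a' c κ s' w') ∧
  (∀ (a c : ℝ≥0) (κ : ℕ → ℝ≥0) (s : Finset ℕ) (w : ℕ → ℝ × ℝ≥0) (k : ℕ), 0 < c → k ∈ s →
    ((w k).1 ≤ 1 - Real.exp (-((κ k : ℝ) * (Sel a c κ s w : ℝ))) ↔
      (w k).1 ≤ 1 - Real.exp (-((κ k : ℝ) * (Sel a c κ (s.erase k) w : ℝ))))) ∧
  (∀ (a c : ℝ≥0) (κ : ℕ → ℝ≥0) (s : Finset ℕ) (w : ℕ → ℝ × ℝ≥0) (k : ℕ), 0 < c → k ∈ s →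
    ¬ (w k).1 ≤ 1 - Real.exp (-((κ k : ℝ) * (Sel a c κ s w : ℝ))) →
      Sel a c κ s w = Sel a c κ (s.erase k) w)

/-- Joint measurability. -/
def TaskSelMeas : Prop :=
  ∀ (c : ℝ≥0) (κ : ℕ → ℝ≥0) (s : Finset ℕ), 0 < c →
    Measurable fun q : ℝ≥0 × (ℕ → ℝ × ℝ≥0) => Sel q.1 c κ s q.2

/-! ## B. The law of the pressure at one vertex -/

/-- `star` and `nu` are probability measures; lower bound of the emission rate. -/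
def TaskNu : Prop :=
  (∀ (mu : ℝ≥0) (D : ℕ) (κ : ℕ → ℝ≥0) (ν : ℕ → Measure ℝ≥0),
    IsProbabilityMeasure (star mu D κ ν)) ∧
  (∀ (mu : ℝ≥0) (n : ℕ) (Z : Env), IsProbabilityMeasure (nu mu n Z)) ∧
  (∀ (mu : ℝ≥0) (n : ℕ) (Z : Env), kap n Z = 0 → nu mu n Z = Measure.dirac 0) ∧
  (∀ (mu : ℝ≥0) (n : ℕ) (Z : Env), 1 ≤ n → kap n Z ≠ 0 →
    nu mu n Z {lam | (lam : ℝ) < mu * (1 - kap n Z)} = 0)

/-- The event the child `k` is entered is independent of the emission rate of `k`, and its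
probability is expressed by the pressure without `k`. -/
def TaskLeave : Prop :=
  (∀ (mu c : ℝ≥0) (κ : ℕ → ℝ≥0) (ν : ℕ → Measure ℝ≥0) (s : Finset ℕ) (J k : ℕ)
    (ψ : ℝ≥0 → ℝ≥0∞), 0 < c → J ∉ s → k ∈ s → Measurable ψ →
    ∫⁻ w, (if (w k).1 ≤ 1 - Real.exp (-((κ k : ℝ) * (Sel (mu + (w J).2) c κ s w : ℝ)))
      then ψ ((w k).2) else 0) ∂(WW ν) ≤ ∫⁻ lam, ψ lam ∂(pr (ν k))) ∧
  (∀ (mu c : ℝ≥0) (κ : ℕ → ℝ≥0) (ν : ℕ → Measure ℝ≥0) (s : Finset ℕ) (J k : ℕ),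
    0 < c → J ∉ s → k ∈ s →
    ∫⁻ w, (if (w k).1 ≤ 1 - Real.exp (-((κ k : ℝ) * (Sel (mu + (w J).2) c κ s w : ℝ)))
      then 0 else 1) ∂(WW ν) =
    ∫⁻ w, ENNReal.ofReal (Real.exp (-((κ k : ℝ) *
      (Sel (mu + (w J).2) c κ (s.erase k) w : ℝ)))) ∂(WW ν))

/-- Convexity inequality for one vertex. -/
def TaskStar : Prop :=
  ∀ (M mu : ℝ≥0) (j D : ℕ) (κ : ℕ → ℝ≥0) (ν : ℕ → Measure ℝ≥0), 0 < M → (j = 1 ∨ j = 2) →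
    (∀ k, IsProbabilityMeasure (ν k)) → ∑ k ∈ Finset.range D, κ k ≠ 0 →
    ∫⁻ lam, (gg M j ((∑ k ∈ Finset.range D, κ k) / (1 + ∑ k ∈ Finset.range D, κ k)) lam : ℝ≥0∞)
      ∂(star mu D κ ν) ≤
    ∑ k ∈ Finset.range D, ((κ k / ∑ k ∈ Finset.range D, κ k : ℝ≥0) : ℝ≥0∞) *
      (∫⁻ lam, (gg M j 1 (lam / κ k + mu / ∑ k ∈ Finset.range D, κ k) : ℝ≥0∞) ∂(ν k) +
        ∑ J ∈ (Finset.range D).erase k,
          ((κ J / ∑ k ∈ Finset.range D, κ k : ℝ≥0) : ℝ≥0∞) * TT mu D κ ν k J)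

/-- Direct bound. -/
def TaskDirect : Prop :=
  ∀ (mu : ℝ≥0) (D : ℕ) (κ : ℕ → ℝ≥0) (ν : ℕ → Measure ℝ≥0) (i J : ℕ),
    (∀ k, IsProbabilityMeasure (ν k)) →
    TT mu D κ ν i J ≤ ∫⁻ lam, ENNReal.ofReal (Real.exp (-((κ i : ℝ) *
      ((mu : ℝ) + lam) / (1 + ∑ k ∈ Finset.range D, (κ k : ℝ))))) ∂(ν J)

/-- Lower tail of the pressure. -/
def TaskGrow1 : Prop :=
  ∀ (α B : ℝ) (m a c : ℝ≥0) (κ : ℕ → ℝ≥0) (ν : ℕ → Measure ℝ≥0) (s G : Finset ℕ),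
    0 < α → α ≤ 1 → 1 ≤ B → 16 * B / α ≤ m → 1 ≤ c → G ⊆ s →
    (∀ k, IsProbabilityMeasure (ν k)) → (∀ k ∈ G, α ≤ κ k ∧ ν k {lam | lam < m} = 0) →
    (c : ℝ) ≤ B * G.card →
    WW ν {w | (Sel a c κ s w : ℝ) < 1 / α} ≤
      ENNReal.ofReal (2 * Real.exp (-(α * a / (4 * B))))

/-- Laplace transform of the pressure. -/
def TaskGrow2 : Prop :=
  ∀ (α B : ℝ) (m a c θ : ℝ≥0) (κ : ℕ → ℝ≥0) (ν : ℕ → Measure ℝ≥0) (s G : Finset ℕ),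
    0 < α → α ≤ 1 → 1 ≤ B → 16 * B / α ≤ m → 1 ≤ c → G ⊆ s →
    (∀ k, IsProbabilityMeasure (ν k)) → (∀ k ∈ G, α ≤ κ k ∧ ν k {lam | lam < m} = 0) →
    (c : ℝ) ≤ B * G.card →
    ∫⁻ w, ENNReal.ofReal (Real.exp (-((θ : ℝ) * (Sel a c κ s w : ℝ)))) ∂(WW ν) ≤
      ENNReal.ofReal (2 * Real.exp (-(α * a / (4 * B)))) +
      (G.card : ℝ≥0∞)⁻¹ * ∑ k ∈ G, ∫⁻ lam, ENNReal.ofReal
        (Real.exp (-((θ : ℝ) * lam / (8 * B)))) ∂(ν k) +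
      ENNReal.ofReal ((7 / 10) ^ G.card * Real.exp (-((θ : ℝ) * a / (2 * c))))

/-- The same with the first particle. -/
def TaskRho : Prop :=
  ∀ (α B : ℝ) (m mu : ℝ≥0) (D : ℕ) (κ : ℕ → ℝ≥0) (ν : ℕ → Measure ℝ≥0) (i J : ℕ)
    (G : Finset ℕ), 0 < α → α ≤ 1 → 1 ≤ B → 16 * B / α ≤ m →
    G ⊆ ((Finset.range D).erase J).erase i → (∀ k, κ k ≤ 1) →
    (∀ k, IsProbabilityMeasure (ν k)) → (∀ k ∈ G, α ≤ κ k ∧ ν k {lam | lam < m} = 0) →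
    1 + (D : ℝ) ≤ B * G.card →
    TT mu D κ ν i J ≤
      ∫⁻ lam, ENNReal.ofReal (2 * Real.exp (-(α * ((mu : ℝ) + lam) / (4 * B)))) ∂(ν J) +
      (G.card : ℝ≥0∞)⁻¹ * ∑ k ∈ G, ∫⁻ lam, ENNReal.ofReal
        (Real.exp (-((κ i : ℝ) * lam / (8 * B)))) ∂(ν k) +
      ∫⁻ lam, ENNReal.ofReal ((7 / 10) ^ G.card * Real.exp (-((κ i : ℝ) * ((mu : ℝ) + lam) /
        (2 * (1 + ∑ k ∈ Finset.range D, (κ k : ℝ)))))) ∂(ν J)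

/-- The quenched bound of the loss. -/
def TaskLossQ : Prop :=
  ∀ α B : ℝ, 0 < α → α ≤ 1 → 1 ≤ B → ∃ C : ℝ≥0, ∀ (M m mu : ℝ≥0), 1 ≤ M → M ≤ m →
    16 * B / α ≤ m → m ≤ mu → ∀ (D : ℕ) (κ : ℕ → ℝ≥0) (ν : ℕ → Measure ℝ≥0),
    (∀ k, κ k ≤ 1) → (∀ k, IsProbabilityMeasure (ν k)) →
    (∀ k < D, κ k ≠ 0 → ν k {lam | (lam : ℝ) < mu * (1 - κ k)} = 0) →
    ∑ k ∈ Finset.range D, κ k ≠ 0 →
    LL mu D κ ν ≤ ((C / M ^ 2 : ℝ≥0) : ℝ≥0∞) *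
      ∑ i ∈ Finset.range D, ∑ J ∈ (Finset.range D).erase i,
        ((((κ i)⁻¹) ^ 4 * (κ J)⁻¹ : ℝ≥0) : ℝ≥0∞) *
          (∫⁻ lam, (gg M 2 (κ J) lam : ℝ≥0∞) ∂(ν J)) * wt α B m mu D κ i J

/-! ## C. Averages over i.i.d. families -/

/-- Exchangeability identity (invariance of the harmonic measure). -/
def TaskExch : Prop :=
  ∀ (X : Type) [MeasurableSpace X] (m : Measure X) [IsProbabilityMeasure m] (κ : X → ℝ≥0)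
    (p : Measure ℕ) [IsProbabilityMeasure p] (f : X → ℝ≥0∞), Measurable κ → Measurable f →
    ∫⁻ x', ∫⁻ k, ∫⁻ Y, ∑ i ∈ Finset.range k,
        ((κ x' / (κ x' + ∑ j ∈ Finset.range k, κ (Y j)) : ℝ≥0) : ℝ≥0∞) * f (Y i)
        ∂(Measure.infinitePi fun _ : ℕ => m) ∂p ∂m =
      ∫⁻ x, ∫⁻ k, ∫⁻ Y,
        (((∑ j ∈ Finset.range k, κ (Y j)) / ((∑ j ∈ Finset.range k, κ (Y j)) + κ x) : ℝ≥0) :
          ℝ≥0∞) * f x ∂(Measure.infinitePi fun _ : ℕ => m) ∂p ∂m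

/-- Sums over pairs of children. -/
def TaskDS2 : Prop :=
  ∀ (X : Type) [MeasurableSpace X] (m : Measure X) [IsProbabilityMeasure m] (κ : X → ℝ≥0)
    (p : Measure ℕ) [IsProbabilityMeasure p] (f h : X → ℝ≥0∞), Measurable κ → Measurable f →
    Measurable h → (∀ x, κ x ≤ 1) →
    (∫⁻ x, (κ x : ℝ≥0∞) ∂m) ^ 2 * ∫⁻ k, ∫⁻ Y, ∑ i ∈ Finset.range k,
      ∑ j ∈ (Finset.range k).erase i, f (Y i) * h (Y j) *
        ((((1 + ∑ l ∈ Finset.range k, κ (Y l))⁻¹) ^ 2 : ℝ≥0) : ℝ≥0∞)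
        ∂(Measure.infinitePi fun _ : ℕ => m) ∂p ≤
      4 * (∫⁻ x, f x ∂m) * ∫⁻ x, h x ∂m

/-- Pairs of children when few of the others are good. -/
def TaskAtyp : Prop :=
  ∀ pg : ℝ, 0 < pg → pg ≤ 1 → ∃ C : ℝ≥0, ∀ (X : Type) [MeasurableSpace X] (m : Measure X)
    [IsProbabilityMeasure m] (gd : Set X) (p : Measure ℕ) [IsProbabilityMeasure p]
    (f h : X → ℝ≥0∞), MeasurableSet gd → ENNReal.ofReal pg ≤ m gd → Measurable f →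
    Measurable h →
    ∫⁻ k, ∫⁻ Y, ∑ i ∈ Finset.range k, ∑ j ∈ (Finset.range k).erase i, f (Y i) * h (Y j) *
        ((if (((((Finset.range k).erase i).erase j).filter fun l => Y l ∈ gd).card : ℝ) *
            (4 / pg) < 1 + k then 1 else 0) +
          ENNReal.ofReal ((7 / 10 : ℝ) ^ ((1 + (k : ℝ)) / (4 / pg))))
        ∂(Measure.infinitePi fun _ : ℕ => m) ∂p ≤
      C * (∫⁻ x, f x ∂m) * ∫⁻ x, h x ∂m

/-- Only one child has positive conductance. -/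
def TaskSing : Prop :=
  ∀ (X : Type) [MeasurableSpace X] (m : Measure X) [IsProbabilityMeasure m] (κ : X → ℝ≥0)
    (p : Measure ℕ) [IsProbabilityMeasure p] (f : X → ℝ≥0∞), Measurable κ → Measurable f →
    ∫⁻ k, ∫⁻ Y, ∑ i ∈ Finset.range k,
        (if ∀ j < k, j ≠ i → κ (Y j) = 0 then f (Y i) else 0)
        ∂(Measure.infinitePi fun _ : ℕ => m) ∂p =
      (∑' k, p {k} * ((k : ℝ≥0∞) * m {x | κ x = 0} ^ (k - 1))) * ∫⁻ x, f x ∂m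

/-- Two children of positive conductance. -/
def TaskPair : Prop :=
  ∀ (X : Type) [MeasurableSpace X] (m : Measure X) [IsProbabilityMeasure m] (κ : X → ℝ≥0)
    (p : Measure ℕ) [IsProbabilityMeasure p] (j : ℕ), Measurable κ → 1 ≤ j →
    (1 - m {x | κ x = 0}) ^ 2 * ∫⁻ k, ∫⁻ Y,
        (if ∃ a < k, ∃ b < k, a ≠ b ∧ κ (Y a) ≠ 0 ∧ κ (Y b) ≠ 0 then
          ((((∑ l ∈ Finset.range k, κ (Y l))⁻¹) ^ (2 * j) : ℝ≥0) : ℝ≥0∞) else 0)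
        ∂(Measure.infinitePi fun _ : ℕ => m) ∂p ≤
      (∫⁻ x, ((((κ x)⁻¹) ^ j : ℝ≥0) : ℝ≥0∞) ∂m) ^ 2

/-- First negative moment of the sum, at least two positive summands. -/
def TaskPair1 : Prop :=
  ∀ (X : Type) [MeasurableSpace X] (m : Measure X) [IsProbabilityMeasure m] (κ : X → ℝ≥0)
    (p : Measure ℕ) [IsProbabilityMeasure p], Measurable κ →
    2 * (1 - m {x | κ x = 0}) * ∫⁻ k, ∫⁻ Y,
        (if ∃ a < k, ∃ b < k, a ≠ b ∧ κ (Y a) ≠ 0 ∧ κ (Y b) ≠ 0 then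
          (((∑ l ∈ Finset.range k, κ (Y l))⁻¹ : ℝ≥0) : ℝ≥0∞) else 0)
        ∂(Measure.infinitePi fun _ : ℕ => m) ∂p ≤
      (1 - ∑' k, p {k} * m {x | κ x = 0} ^ k -
        (∑' k, p {k} * ((k : ℝ≥0∞) * m {x | κ x = 0} ^ (k - 1))) * (1 - m {x | κ x = 0})) *
        ∫⁻ x, (((κ x)⁻¹ : ℝ≥0) : ℝ≥0∞) ∂m

/-! ## D. Conductances of Galton-Watson trees -/

/-- Elementary properties. -/
def TaskKap : Prop :=
  (∀ n Z, kap n Z ≤ 1) ∧ (∀ n Z, kap (n + 1) Z ≤ kap n Z) ∧ (∀ n Z, KK n Z ≤ Z []) ∧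
  (∀ n Z, KK n Z = ∑ k ∈ Finset.range (Z []), kc n Z k) ∧
  (∀ γ : ℝ, 0 < γ → γ < 1 → ∀ n Z, γ * ww ((1 - γ) / (1 + γ)) Z ≤ (kap n Z : ℝ))

/-- Everything that depends on finitely many levels only is measurable. -/
def TaskMeasZ : Prop :=
  (∀ (n : ℕ) (β : Type) [MeasurableSpace β] (f : Env → β),
    (∀ Z Z', vert Z n = vert Z' n → f Z = f Z') → Measurable f) ∧
  (∀ n Z Z', vert Z (n + 1) = vert Z' (n + 1) → kap n Z = kap n Z' ∧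
    ∀ mu, nu mu n Z = nu mu n Z') ∧
  (∀ n Z Z', vert Z (n + 2) = vert Z' (n + 2) → Z [] = Z' [] ∧ KK n Z = KK n Z' ∧
    ∀ k < Z [], kap n (sh k Z) = kap n (sh k Z') ∧ ∀ mu, nu mu n (sh k Z) = nu mu n (sh k Z'))

/-- Supercritical offspring laws. -/
def Super (p : Measure ℕ) : Prop := 1 < ∫⁻ k, (k : ℝ≥0∞) ∂p

/-- Facts on supercritical trees. -/
def TaskEnv : Prop :=
  ∀ (p : Measure ℕ) [IsProbabilityMeasure p], Super p →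
    (∃ z : ℝ≥0∞, z < 1 ∧ (∀ n, GW p {Z | kap n Z = 0} ≤ z) ∧
      ∑' k, p {k} * ((k : ℝ≥0∞) * z ^ (k - 1)) < 1) ∧
    (∃ c : ℝ≥0, 0 < c ∧ ∀ n, (c : ℝ≥0∞) ≤ ∫⁻ Z, (kap n Z : ℝ≥0∞) ∂(GW p)) ∧
    (∃ α : ℝ, 0 < α ∧ α ≤ 1 ∧ ∃ q : ℝ≥0, 0 < q ∧ q ≤ 1 ∧
      ∀ n, (q : ℝ≥0∞) ≤ GW p {Z | α ≤ (kap n Z : ℝ)}) ∧
    (∀ᵐ Z ∂(GW p), Z ∈ Survive → ∃ c : ℝ≥0, 0 < c ∧ ∀ n, c ≤ KK n Z)

/-- Many children are good. -/
def TaskGood : Prop :=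
  ∀ (p : Measure ℕ) [IsProbabilityMeasure p], Super p →
    ∃ α : ℝ, 0 < α ∧ α ≤ 1 ∧ ∃ pg : ℝ, 0 < pg ∧ pg ≤ 1 ∧ ∀ m : ℝ≥0, ∃ mu0 : ℝ≥0,
      ∀ mu, mu0 ≤ mu → ∀ n, 1 ≤ n → ENNReal.ofReal pg ≤ GW p {Z | Gd α m mu (kap n Z)}

/-- Negative moments: the first one. -/
def TaskN1 : Prop :=
  ∀ (p : Measure ℕ) [IsProbabilityMeasure p], Super p →
    ∃ C : ℝ≥0, ∀ n, ∫⁻ Z, (((kap n Z)⁻¹ : ℝ≥0) : ℝ≥0∞) ∂(GW p) ≤ C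

/-- Negative moments: doubling the order. -/
def TaskN2 : Prop :=
  ∀ (p : Measure ℕ) [IsProbabilityMeasure p], Super p → ∀ j : ℕ, 1 ≤ j →
    (∃ C : ℝ≥0, ∀ n, ∫⁻ Z, ((((kap n Z)⁻¹) ^ j : ℝ≥0) : ℝ≥0∞) ∂(GW p) ≤ C) →
    ∃ C : ℝ≥0, ∀ n, ∫⁻ Z, ((((kap n Z)⁻¹) ^ (2 * j) : ℝ≥0) : ℝ≥0∞) ∂(GW p) ≤ C

/-- The averaged loss. -/
def TaskLB : Prop :=
  ∀ (p : Measure ℕ) [IsProbabilityMeasure p], Super p →
    ∃ C : ℝ≥0, ∀ M : ℝ≥0, 1 ≤ M → ∃ mu0 : ℝ≥0, M ≤ mu0 ∧ ∀ mu, mu0 ≤ mu → ∀ n, 1 ≤ n →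
      ∫⁻ Z, Ls mu n Z ∂(GW p) ≤ ((C / M ^ 2 : ℝ≥0) : ℝ≥0∞) * Psi p M mu n

/-- Recursion for `Phi`. -/
def TaskR1 : Prop :=
  ∀ (p : Measure ℕ) [IsProbabilityMeasure p], Super p →
    ∃ δ : ℝ≥0, 0 < δ ∧ ∀ M mu : ℝ≥0, 1 ≤ M → M ≤ mu → ∀ n,
      Phi p M mu (n + 1) + δ * Gain p M mu n ≤ Phi p M mu n + ∫⁻ Z, Ls mu n Z ∂(GW p)

/-- Recursion for `Psi`. -/
def TaskR2 : Prop :=
  ∀ (p : Measure ℕ) [IsProbabilityMeasure p], Super p →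
    ∃ ρ : ℝ≥0, ρ < 1 ∧ ∃ C : ℝ≥0, ∀ M mu : ℝ≥0, 1 ≤ M → ∀ n,
      Psi p M mu (n + 1) ≤ ρ * Psi p M mu n + C * Gain p M mu n + ∫⁻ Z, Ls mu n Z ∂(GW p)

/-- Summation. -/
def TaskSum : Prop :=
  ∀ δ ρ C C' : ℝ≥0, 0 < δ → ρ < 1 → ∃ M0 : ℝ≥0, 1 ≤ M0 ∧ ∀ M : ℝ≥0, M0 ≤ M →
    ∀ Φ A Ψ L : ℕ → ℝ≥0∞, (∀ n, Φ n ≤ 1) → Ψ 1 ≠ ∞ → (∀ n, A n ≤ 1) →
    (∀ n, 1 ≤ n → Φ (n + 1) + δ * A n ≤ Φ n + L n) →
    (∀ n, 1 ≤ n → Ψ (n + 1) ≤ ρ * Ψ n + C * A n + L n) →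
    (∀ n, 1 ≤ n → L n ≤ ((C' / M ^ 2 : ℝ≥0) : ℝ≥0∞) * Ψ n) → Tendsto A atTop (𝓝 0)

/-- From the gain functional to the Laplace transform. -/
def TaskFin : Prop :=
  ∀ (p : Measure ℕ) [IsProbabilityMeasure p] (M mu : ℝ≥0), 1 ≤ M →
    Tendsto (Gain p M mu) atTop (𝓝 0) →
    Tendsto (fun n => ∫⁻ Z, (kap n Z : ℝ≥0∞) *
      ∫⁻ lam, ENNReal.ofReal (Real.exp (-(lam : ℝ))) ∂(nu mu n Z) ∂(GW p)) atTop (𝓝 0)

/-- The analytic half. -/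
def TaskRDE : Prop :=
  ∀ (p : Measure ℕ) [IsProbabilityMeasure p], Super p →
    ∃ mu0 : ℝ≥0, ∀ mu, mu0 ≤ mu →
      Tendsto (fun n => ∫⁻ Z, (kap n Z : ℝ≥0∞) *
        ∫⁻ lam, ENNReal.ofReal (Real.exp (-(lam : ℝ))) ∂(nu mu n Z) ∂(GW p)) atTop (𝓝 0)

/-! ## E. Configurations -/

/-- Algebra of the weights. -/
def TaskAlg : Prop :=
  (∀ (n : ℕ) (Z : Env) (i : ℕ) (x : List ℕ),
    (x ++ [i] ∈ vert Z (n + 1) ↔ i < Z [] ∧ x ∈ vert (sh i Z) n) ∧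
    (x ++ [i] ∈ lev Z (n + 1) ↔ i < Z [] ∧ x ∈ lev (sh i Z) n)) ∧
  (∀ (n : ℕ) (Z : Env) (x : List ℕ), (x ∈ vert Z n → x.length < n) ∧
    (x ∈ lev Z n → x.length = n)) ∧
  (∀ (n : ℕ) (Z : Env) (i : ℕ) (t x : List ℕ),
    FF (n + 1) Z (x ++ [i]) = FF n (sh i Z) x ∧
    hh (n + 1) Z (t ++ [i]) (x ++ [i]) = hh n (sh i Z) t x ∧
    bt (n + 1) Z (t ++ [i]) (x ++ [i]) = bt n (sh i Z) t x ∧
    hh (n + 1) Z [] (x ++ [i]) = GG n (sh i Z) x ∧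
    bt (n + 1) Z [] (x ++ [i]) = FF (n + 1) Z [] * bt n (sh i Z) [] x ∧
    GG (n + 1) Z (x ++ [i]) = FF (n + 1) Z [] * GG n (sh i Z) x) ∧
  (∀ (n : ℕ) (Z : Env), FF (n + 1) Z [] = (1 + KK n Z)⁻¹ ∧
    ∑ z ∈ lev Z n, bt n Z [] z = kap n Z ∧ GG (n + 1) Z [] = FF (n + 1) Z [] ∧
    (∀ z ∈ lev Z n, 0 < bt n Z [] z) ∧ ∀ x, hh n Z [] x ≤ 1 ∧ bt n Z [] x ≤ 1)

/-- Opened sets: measurability, monotonicity, almost sure validity of the bits. -/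
def TaskOpn : Prop :=
  (∀ (N : ℕ) (S : Set (List ℕ)) (x : List ℕ), MeasurableSet {η : Ix → Bool | Opn N η S x}) ∧
  (∀ (mu : ℝ≥0) (N : ℕ) (Z : Env) (S : Set (List ℕ)),
    Measurable fun η : Ix → Bool => Lam mu N Z η S) ∧
  (∀ (N : ℕ) (η : Ix → Bool) (S S' : Set (List ℕ)) (x : List ℕ), S ⊆ S' → Opn N η S x →
    Opn N η S' x) ∧
  (∀ (mu : ℝ≥0) (N : ℕ) (Z : Env) (η : Ix → Bool) (S S' : Set (List ℕ)), S ⊆ S' →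
    Lam mu N Z η S ≤ Lam mu N Z η S') ∧
  (∀ (mu : ℝ≥0) (N : ℕ) (Z : Env), ∀ᵐ η ∂(PB mu N Z), ∀ x t z, η (x, t, z) = true →
    bet N Z x t z ≠ 0) ∧
  (∀ (N : ℕ) (η : Ix → Bool) (x : List ℕ), ¬ Opn N η ∅ x)

/-- Splitting of a configuration at the root. -/
def TaskSplit : Prop :=
  ∀ (mu : ℝ≥0) (n : ℕ) (Z : Env),
    MeasurePreserving (fun η : Ix → Bool => ((fun i : Fin (Z []) => inner i η),
        (fun q : List ℕ × List ℕ => η (q.1, [], q.2)))) (PB mu (n + 1) Z)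
      ((Measure.pi fun i : Fin (Z []) => PB mu n (sh i Z)).prod
        (Measure.infinitePi fun q : List ℕ × List ℕ => bern (mu * bet (n + 1) Z q.1 [] q.2)))

/-- The law of a closure only depends on the one-point probabilities. -/
def TaskClos : Prop :=
  ∀ (L : Type) [Fintype L] [DecidableEq L] (Ω Ω' : L → Type) [∀ z, MeasurableSpace (Ω z)]
    [∀ z, MeasurableSpace (Ω' z)] (P : ∀ z, Measure (Ω z)) (P' : ∀ z, Measure (Ω' z))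
    [∀ z, IsProbabilityMeasure (P z)] [∀ z, IsProbabilityMeasure (P' z)]
    (H : ∀ z, Finset L → Set (Ω z)) (H' : ∀ z, Finset L → Set (Ω' z)),
    (∀ z U, MeasurableSet (H z U)) → (∀ z U, MeasurableSet (H' z U)) →
    (∀ z, Monotone (H z)) → (∀ z, Monotone (H' z)) → (∀ z U, P z (H z U) = P' z (H' z U)) →
    ∀ (U0 : Finset L) (f : Finset L → ℝ≥0∞),
      ∫⁻ ω, f (clo (fun U y => ω y ∈ H y U) U0) ∂(Measure.pi P) =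
        ∫⁻ ω, f (clo (fun U y => ω y ∈ H' y U) U0) ∂(Measure.pi P')

/-- Decomposition of the opened set at the root (deterministic). -/
def TaskDec : Prop :=
  ∀ (n : ℕ) (Z : Env) (η : Ix → Bool) (z0 : List ℕ), z0 ∈ lev Z (n + 1) →
    (∀ x t z, η (x, t, z) = true → bet (n + 1) Z x t z ≠ 0) →
    (∀ x, Opn (n + 1) η {z0} x ↔ x = [] ∨ ∃ i x', i < Z [] ∧ x = x' ++ [i] ∧
      Opn n (inner i η) {z' | z' ++ [i] ∈ (lev Z (n + 1)).filter fun z => z = z0 ∨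
        ∃ x1, Opn (n + 1) η {z0} x1 ∧ η (x1, [], z) = true} x') ∧
    ((lev Z (n + 1)).filter fun z => z = z0 ∨
        ∃ x1, Opn (n + 1) η {z0} x1 ∧ η (x1, [], z) = true) =
      (lev Z (n + 1)).filter fun z => ∀ V ⊆ lev Z (n + 1), z0 ∈ V →
        (∀ y ∈ lev Z (n + 1), (∃ x, (x = [] ∨ ∃ i x', i < Z [] ∧ x = x' ++ [i] ∧
          Opn n (inner i η) {z' | z' ++ [i] ∈ V} x') ∧ η (x, [], y) = true) → y ∈ V) → z ∈ V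

/-- Passage to thresholds at the root. -/
def TaskThr : Prop :=
  ∀ (mu : ℝ≥0) (n : ℕ) (Z : Env) (φ : ℝ≥0 → ℝ≥0∞) (z0 : List ℕ), Antitone φ →
    z0 ∈ lev Z (n + 1) →
    ∫⁻ η, φ (Lam mu (n + 1) Z η {z0}) ∂(PB mu (n + 1) Z) =
      ∫⁻ ω, ∫⁻ x, φ (Lin mu n Z ω (Cl mu n Z ω z0 x)) ∂(Measure.infinitePi fun _ : List ℕ => unif)
        ∂(Measure.pi fun i : Fin (Z []) => PB mu n (sh i Z))

/-- Competing thresholds. -/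
def TaskComp2 : Prop :=
  ∀ (ι : Type) [Fintype ι] [DecidableEq ι] [Nonempty ι] (b : ι → ℝ≥0), (∀ i, 0 < b i) →
    ∃ (X : (ι → ℝ) → ℝ) (I : (ι → ℝ) → ι),
      (∀ x : ι → ℝ, (∀ i, 0 ≤ x i ∧ x i < 1) → ∀ t : ℝ≥0,
        X x ≤ 1 - Real.exp (-(((∑ i, b i : ℝ≥0) : ℝ) * t)) →
        x (I x) ≤ 1 - Real.exp (-((b (I x) : ℝ) * t))) ∧
      ∀ h : ℝ → ι → ℝ≥0∞, (∀ i, Measurable fun y => h y i) →
        Measurable (fun x => h (X x) (I x)) ∧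
        ∫⁻ x, h (X x) (I x) ∂(Measure.pi fun _ : ι => unif) =
          ∑ i, ((b i / ∑ j, b j : ℝ≥0) : ℝ≥0∞) * ∫⁻ y, h y i ∂unif

/-- Stochastic monotonicity in the laws of the emission rates. -/
def TaskMono : Prop :=
  ∀ (mu c : ℝ≥0) (κ : ℕ → ℝ≥0) (s : Finset ℕ) (J : ℕ) (ν ν' : ℕ → Measure ℝ≥0)
    (φ : ℝ≥0 → ℝ≥0∞), 0 < c → J ∉ s → (∀ k, IsProbabilityMeasure (ν k)) →
    (∀ k, IsProbabilityMeasure (ν' k)) → Antitone φ →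
    (∀ k ∈ insert J s, ∀ ψ : ℝ≥0 → ℝ≥0∞, Antitone ψ → ∫⁻ x, ψ x ∂(ν k) ≤ ∫⁻ x, ψ x ∂(ν' k)) →
    ∫⁻ w, φ (Sel (mu + (w J).2) c κ s w) ∂(WW ν) ≤
      ∫⁻ w, φ (Sel (mu + (w J).2) c κ s w) ∂(WW ν')

/-- From thresholds of leaves to thresholds of children. -/
def TaskRed : Prop :=
  ∀ (mu : ℝ≥0) (n : ℕ) (Z : Env) (φ : ℝ≥0 → ℝ≥0∞) (J : ℕ) (z0 : List ℕ), Antitone φ →
    J < Z [] → z0 ∈ lev (sh J Z) n →
    ∫⁻ ω, ∫⁻ x, φ (Lin mu n Z ω (Cl mu n Z ω (z0 ++ [J]) x))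
        ∂(Measure.infinitePi fun _ : List ℕ => unif)
        ∂(Measure.pi fun i : Fin (Z []) => PB mu n (sh i Z)) ≤
      ∫⁻ w, φ (Sel (mu + (w J).2) (1 + KK n Z) (kc n Z) ((Finset.range (Z [])).erase J) w)
        ∂(WW fun k => if k = J then lawz mu n Z J z0 else nuF mu n Z k)

/-- Domination: the emission rate of the particle system is at least the one of `nu`. -/
def TaskClaim : Prop :=
  ∀ (mu : ℝ≥0) (n : ℕ) (Z : Env) (φ : ℝ≥0 → ℝ≥0∞), Antitone φ →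
    ∑ z ∈ lev Z n, (bt n Z [] z : ℝ≥0∞) * ∫⁻ η, φ (Lam mu n Z η {z}) ∂(PB mu n Z) ≤
      (kap n Z : ℝ≥0∞) * ∫⁻ lam, φ lam ∂(nu mu n Z)

/-! ## F. Walks -/

/-- Measurability and disjointness of the classes. -/
def TaskCEm : Prop :=
  (∀ (Z : Env) (N : ℕ) (x t z : List ℕ), MeasurableSet {u | CE Z N x t z u}) ∧
  (∀ (Z : Env) (N : ℕ) (x : List ℕ), MeasurableSet {u | VE Z N x u}) ∧
  (∀ (Z : Env) (N : ℕ) (x t z t' z' : List ℕ) (u : ℕ → ℝ), CE Z N x t z u →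
    CE Z N x t' z' u → t = t' ∧ z = z') ∧
  (∀ (Z : Env) (N : ℕ) (x t z : List ℕ) (u : ℕ → ℝ), CE Z N x t z u → t ≠ [] →
    ¬ VE Z N x u) ∧
  (∀ (Z : Env) (N : ℕ) (x t z : List ℕ) (u : ℕ → ℝ), CE Z N x t z u → t <:+ x ∧ t <:+ z)

/-- One-step equations. -/
def TaskCE1 : Prop :=
  (∀ (Z : Env) (N : ℕ) (x t z : List ℕ), x ∈ vert Z N → x ≠ [] → t <:+ x → t ≠ x →
    ((Z x : ℝ≥0∞) + 1) * (Measure.infinitePi fun _ : ℕ => unif) {u | CE Z N x t z u} =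
      (Measure.infinitePi fun _ : ℕ => unif) {u | CE Z N x.tail t z u} +
      ∑ j ∈ Finset.range (Z x),
        (Measure.infinitePi fun _ : ℕ => unif) {u | CE Z N (j :: x) t z u}) ∧
  (∀ (Z : Env) (N : ℕ) (t z : List ℕ), t ∈ vert Z N → t ≠ [] →
    ((Z t : ℝ≥0∞) + 1) * (Measure.infinitePi fun _ : ℕ => unif) {u | CE Z N t t z u} =
      ∑ j ∈ Finset.range (Z t),
        ((Measure.infinitePi fun _ : ℕ => unif) {u | CE Z N (j :: t) t z u} +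
          (Measure.infinitePi fun _ : ℕ => unif) {u | CE Z N (j :: t) (j :: t) z u})) ∧
  (∀ (Z : Env) (N : ℕ) (z : List ℕ), 1 ≤ Z [] → 1 ≤ N →
    (Z [] : ℝ≥0∞) * (Measure.infinitePi fun _ : ℕ => unif) {u | CE Z N [] [] z u} =
      ∑ j ∈ Finset.range (Z []),
        ((Measure.infinitePi fun _ : ℕ => unif) {u | CE Z N [j] [] z u} +
          (Measure.infinitePi fun _ : ℕ => unif) {u | CE Z N [j] [j] z u})) ∧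
  (∀ (Z : Env) (N : ℕ) (x : List ℕ), x ∈ vert Z N → x ≠ [] →
    ((Z x : ℝ≥0∞) + 1) * (Measure.infinitePi fun _ : ℕ => unif) {u | VE Z N x u} =
      (Measure.infinitePi fun _ : ℕ => unif) {u | VE Z N x.tail u} +
      ∑ j ∈ Finset.range (Z x),
        (Measure.infinitePi fun _ : ℕ => unif) {u | VE Z N (j :: x) u}) ∧
  (∀ (Z : Env) (N : ℕ) (x t z : List ℕ) (u : ℕ → ℝ), x.length = N →
    (CE Z N x t z u ↔ z = x ∧ t = x) ∧ ¬ VE Z N x u)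

/-- Uniqueness in the Dirichlet problem on a subtree, and the recursion for `FF`. -/
def TaskDir : Prop :=
  (∀ (Z : Env) (N i : ℕ) (v : List ℕ) (h : List ℕ → ℝ), i :: v ∈ vert Z N →
    (∀ x ∈ vert Z N, i :: v <:+ x →
      h x * ((Z x : ℝ) + 1) = h x.tail + ∑ j ∈ Finset.range (Z x), h (j :: x)) →
    (∀ x ∈ lev Z N, i :: v <:+ x → h x = 0) → h v = 0 →
    ∀ x ∈ vert Z N, i :: v <:+ x → h x = 0) ∧
  (∀ (N : ℕ) (Z : Env) (x : List ℕ), x.length < N →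
    (FF N Z x : ℝ) * ((Z x : ℝ) + 1 - ∑ j ∈ Finset.range (Z x), (FF N Z (j :: x) : ℝ)) = 1) ∧
  (∀ (N : ℕ) (Z : Env) (x : List ℕ), x.length = N → FF N Z x = 0)

/-- Probabilities of the classes. -/
def TaskCEp : Prop :=
  (∀ (Z : Env) (N : ℕ) (x t z : List ℕ), x ∈ vert Z N → t ≠ [] → t <:+ x → z ∈ lev Z N →
    t <:+ z → (Measure.infinitePi fun _ : ℕ => unif) {u | CE Z N x t z u} =
      ((hh N Z t x * bt N Z t z : ℝ≥0) : ℝ≥0∞)) ∧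
  (∀ (Z : Env) (n : ℕ) (z : List ℕ), KK n Z ≠ 0 → z ∈ lev Z (n + 1) →
    (Measure.infinitePi fun _ : ℕ => unif) {u | CE Z (n + 1) [] [] z u} =
      ((bt (n + 1) Z [] z / kap (n + 1) Z : ℝ≥0) : ℝ≥0∞)) ∧
  (∀ (Z : Env) (N : ℕ) (x : List ℕ), x ∈ vert Z N →
    (Measure.infinitePi fun _ : ℕ => unif) {u | VE Z N x u} = (hh N Z [] x : ℝ≥0∞))

/-- Poisson thinning. -/
def TaskPoi : Prop :=
  ∀ (lam : ℝ≥0) (ι : Type) [Fintype ι] (C : ι → Set (ℕ → ℝ)), (∀ i, MeasurableSet (C i)) →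
    (∀ i j, i ≠ j → Disjoint (C i) (C j)) →
    Measurable (fun (r : Rd) (i : ι) => decide (∃ j < r.1, r.2 j ∈ C i)) ∧
    (vertexLaw lam).map (fun (r : Rd) (i : ι) => decide (∃ j < r.1, r.2 j ∈ C i)) =
      Measure.pi fun i =>
        bern (lam * ((Measure.infinitePi fun _ : ℕ => unif) (C i)).toNNReal)

/-- Opened vertices are active (deterministic). -/
def TaskGeo : Prop :=
  ∀ (Z : Env) (n : ℕ) (ω : Conf) (J : ℕ) (z' : List ℕ),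
    CE Z (n + 1) [] [] (z' ++ [J]) ((ω []).2 0) →
    ∀ y, Opn n (etaJ Z (n + 1) J ω) {z'} y → Active Z ω (y ++ [J])

/-- The event no particle starting at an opened vertex outside `F` visits the root. -/
def NoV (Z : Env) (n : ℕ) (J : ℕ) (z' : List ℕ) (F : Finset (List ℕ)) : Set Conf :=
  {ω | ∀ x ∈ vert (sh J Z) n, Opn n (etaJ Z (n + 1) J ω) {z'} x → x ++ [J] ∉ F →
    ∀ j < (ω (x ++ [J])).1, ¬ VE Z (n + 1) (x ++ [J]) ((ω (x ++ [J])).2 j)}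

/-- Its probability. -/
def TaskLaw : Prop :=
  ∀ (mu : ℝ≥0) (n : ℕ) (Z : Env) (J : ℕ) (z' : List ℕ) (F : Finset (List ℕ)), J < Z [] →
    z' ∈ lev (sh J Z) n →
    MeasurableSet (NoV Z n J z' F) ∧
    FM mu (NoV Z n J z' F) ≤ ENNReal.ofReal (Real.exp (mu * F.card)) *
      ∫⁻ η, ENNReal.ofReal (Real.exp (-(Lam mu n (sh J Z) η {z'} : ℝ))) ∂(PB mu n (sh J Z)) ∧
    ∀ S : Set (ℕ → ℝ), MeasurableSet S →
      FM mu ({ω | (ω []).2 0 ∈ S} ∩ NoV Z n J z' F) =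
        (Measure.infinitePi fun _ : ℕ => unif) S * FM mu (NoV Z n J z' F)

/-- The probabilistic half. -/
def TaskFrog : Prop :=
  ∀ (mu : ℝ≥0) (n : ℕ) (Z : Env) (F : Finset (List ℕ)), KK n Z ≠ 0 → [] ∈ F →
    FM mu {ω | ∀ x j, Active Z ω x → j < cnt x (ω x) → x ∉ F → ∀ k,
        walk Z x ((ω x).2 j) k ≠ []} ≤
      ENNReal.ofReal (Real.exp (mu * F.card)) * ∑ J ∈ Finset.range (Z []),
        ((kap n (sh J Z) / KK n Z : ℝ≥0) : ℝ≥0∞) *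
          ∫⁻ lam, ENNReal.ofReal (Real.exp (-(lam : ℝ))) ∂(nu mu n (sh J Z))

end FrogRec
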